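import Mathlib

/-!
# THEOREM N: the linear inequality

`P` the spread entries, `S` the small entries (`S.card ≤ s`), `m` the masses, `∑ m ≤ 1`. Let `i₁`, `i₂`, `i₃` be the three largest masses `w₁ ≥ w₂ ≥ w₃`, `T = ∑ m ≤ w₁ + w₂ + (n - 2) w₃`.
`i₁ ∈ P`: move E for `(i₁; i₂, i₃)`. `i₁ ∉ P ∪ S`: if `i₂ ∉ P` move G2 for `(i₁, i₂)`, otherwise move E for `(i₂; i₁, i₃)`. `i₁ ∈ S`: let `g` be the largest mass outside `S`: move Q for `(g, i₁)` if `g ∈ P`, otherwise move G2.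
-/

set_option autoImplicit false

namespace Pool.MP_a95293_nt.NN

open Finset

theorem lpN (n s : ℕ) (hn : 4 ≤ n) (hs : 1 ≤ s) (m : Fin n → ℝ) (hm : ∀ i, 0 ≤ m i)
    (h1 : ∑ i, m i ≤ 1) (P S : Finset (Fin n)) (hSc : S.card ≤ s)
    (hSn : S.card < n) (t : ℝ) (t1 : 1 - 2 / (n : ℝ) ≤ t) (t2 : 1 - 1 / (s : ℝ) ≤ t) :
    (∃ j ∈ P, ∃ a b : Fin n, j ≠ a ∧ j ≠ b ∧ a ≠ b ∧ ∑ i, m i - m j - (m a + m b) / 2 ≤ t) ∨
    (∃ j ∈ P, ∃ k ∈ S, j ≠ k ∧ ∑ i, m i - m j - m k ≤ t) ∨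
    (∃ a b : Fin n, a ≠ b ∧ a ∉ P ∧ b ∉ P ∧ a ∉ S ∧ ∑ i, m i - m a - m b ≤ t) := by
  classical
  have hn4 : (4 : ℝ) ≤ n := by exact_mod_cast hn
  have hn0 : (0 : ℝ) < n := by linarith
  have hs1 : (1 : ℝ) ≤ s := by exact_mod_cast hs
  have hs0 : (0 : ℝ) < s := by linarith
  -- criteria
  have c1 : ∀ w : ℝ, 2 * ∑ i, m i ≤ n * w → ∑ i, m i - w ≤ t := by
    intro w hw
    refine le_trans ?_ t1
    have h2 : 2 / (n : ℝ) * (∑ i, m i) ≤ w := by
      rw [div_mul_eq_mul_div, div_le_iff₀ hn0]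
      linarith
    have h3 : 0 ≤ 1 - 2 / (n : ℝ) := by
      have : 2 / (n : ℝ) ≤ 1 := by
        rw [div_le_one hn0]
        linarith
      linarith
    nlinarith
  have c2 : ∀ w : ℝ, ∑ i, m i ≤ s * w → ∑ i, m i - w ≤ t := by
    intro w hw
    refine le_trans ?_ t2
    have h2 : 1 / (s : ℝ) * (∑ i, m i) ≤ w := by
      rw [div_mul_eq_mul_div, div_le_iff₀ hs0]
      linarith
    have h3 : 0 ≤ 1 - 1 / (s : ℝ) := by
      have : 1 / (s : ℝ) ≤ 1 := by
        rw [div_le_one hs0]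
        linarith
      linarith
    nlinarith
  -- the three largest masses
  have hne : (univ : Finset (Fin n)).Nonempty := ⟨⟨0, by omega⟩, mem_univ _⟩
  obtain ⟨i1, -, hi1⟩ := Finset.exists_max_image univ m hne
  have k1 : (univ.erase i1).card = n - 1 := by
    rw [Finset.card_erase_of_mem (mem_univ _), Finset.card_univ, Fintype.card_fin]
  obtain ⟨i2, hi2m, hi2⟩ := Finset.exists_max_image (univ.erase i1) m
    (Finset.card_pos.1 (by omega))
  have k2 : ((univ.erase i1).erase i2).card = n - 2 := by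
    rw [Finset.card_erase_of_mem hi2m, k1]
    omega
  obtain ⟨i3, hi3m, hi3⟩ := Finset.exists_max_image ((univ.erase i1).erase i2) m
    (Finset.card_pos.1 (by omega))
  have n12 : i1 ≠ i2 := (Finset.ne_of_mem_erase hi2m).symm
  have n23 : i2 ≠ i3 := (Finset.ne_of_mem_erase hi3m).symm
  have n13 : i1 ≠ i3 := (Finset.ne_of_mem_erase (Finset.mem_of_mem_erase hi3m)).symm
  have s1 : m i1 + ∑ i ∈ univ.erase i1, m i = ∑ i, m i := Finset.add_sum_erase univ m (mem_univ _)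
  have s2 : m i2 + ∑ i ∈ (univ.erase i1).erase i2, m i = ∑ i ∈ univ.erase i1, m i :=
    Finset.add_sum_erase _ m hi2m
  have s3 : ∑ i ∈ (univ.erase i1).erase i2, m i ≤ ((n : ℝ) - 2) * m i3 := by
    have h := Finset.sum_le_card_nsmul _ _ _ hi3
    rw [k2, nsmul_eq_mul] at h
    have e : (((n - 2 : ℕ)) : ℝ) = (n : ℝ) - 2 := by
      have : (n - 2) + 2 = n := by omega
      rw [← this]
      push_cast
      ring
    rwa [e] at h
  have w12 : m i2 ≤ m i1 := hi1 i2 (mem_univ _)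
  have w23 : m i3 ≤ m i2 := hi2 i3 (Finset.mem_of_mem_erase hi3m)
  have w3 : 0 ≤ m i3 := hm i3
  by_cases hP : i1 ∈ P
  · left
    refine ⟨i1, hP, i2, i3, n12, n13, n23, ?_⟩
    have := c1 (m i1 + (m i2 + m i3) / 2) (by nlinarith)
    linarith
  by_cases hS : i1 ∈ S
  · have hcomp : (Sᶜ).Nonempty := by
      rw [← Finset.card_pos, Finset.card_compl, Fintype.card_fin]
      omega
    obtain ⟨g, hgm, hg⟩ := Finset.exists_max_image Sᶜ m hcomp
    have hgS : g ∉ S := Finset.mem_compl.1 hgm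
    have hg1 : g ≠ i1 := fun h => hgS (h ▸ hS)
    have u1 : ∑ i ∈ S, m i ≤ (S.card : ℝ) * m i1 := by
      have h := Finset.sum_le_card_nsmul S m (m i1) fun i _ => hi1 i (mem_univ _)
      rwa [nsmul_eq_mul] at h
    have u2 : ∑ i ∈ Sᶜ, m i ≤ ((n : ℝ) - S.card) * m g := by
      have h := Finset.sum_le_card_nsmul Sᶜ m (m g) hg
      rw [nsmul_eq_mul, Finset.card_compl, Fintype.card_fin, Nat.cast_sub hSn.le] at h
      exact h
    have u3 := Finset.sum_add_sum_compl S m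
    have u4 : m g ≤ m i1 := hi1 g (mem_univ _)
    have u5 : 0 ≤ m g := hm g
    have key : ∑ i, m i - m g - m i1 ≤ t := by
      have : ∑ i, m i - (m i1 + m g) ≤ t := by
        by_cases hc : 2 * S.card ≤ n
        · have hc' : 2 * (S.card : ℝ) ≤ n := by exact_mod_cast hc
          exact c1 _ (by nlinarith)
        · have hc' : (n : ℝ) ≤ 2 * (S.card : ℝ) := by
            have : n ≤ 2 * S.card := by omega
            exact_mod_cast this
          have hcs : (S.card : ℝ) ≤ s := by exact_mod_cast hSc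
          exact c2 _ (by nlinarith)
      linarith
    by_cases hgP : g ∈ P
    · right
      left
      exact ⟨g, hgP, i1, hS, hg1, key⟩
    · right
      right
      exact ⟨g, i1, hg1, hgP, hP, hgS, key⟩
  · by_cases hP2 : i2 ∈ P
    · left
      refine ⟨i2, hP2, i1, i3, n12.symm, n23, n13, ?_⟩
      have := c1 (m i2 + (m i1 + m i3) / 2) (by nlinarith)
      linarith
    · right
      right
      refine ⟨i1, i2, n12, hP, hP2, hS, ?_⟩
      have := c1 (m i1 + m i2) (by nlinarith)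
      linarith

end Pool.MP_a95293_nt.NN
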