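import Pool.Agent.Lib_MP_a95293_nn.Defs
import Pool.Agent.Lib_MP_a95293_nn.Lp
import Pool.Agent.Lib_MP_a95293_cg.Side
import Pool.Agent.Lib_MP_a95293_rc.Rad

/-!
# THEOREM N: every tuple is reached by one of the three moves

`ρ < θ`, `J ≥ 1` with `2 / J ≤ θ - ρ`. Levels `Lv` (any monotone function): some `i ≤ n` has no entry between `X ^ Lv i` and `X ^ Lv (i + 1)` (`level`). Small entries: `< X ^ Lv i`; at most `s` of them since `n - s` entries are `≥ X ^ Lv (n + 1)`.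
Spread: not small and `X ^ ((J + 1) (Lv i + 3)) ≤ Qs`: there is `q` with `X ^ (Lv i + 3) ≤ q`, `rd q ^ J ≤ X ^ 2`. The other entries satisfy `Cc X (kap J (Lv i)) (A * J) J` (`conc`, or `F` alone for a small entry). Then `lpN`.
-/

set_option autoImplicit false

namespace Pool.MP_a95293_nt.NN

open Finset
open Pool.MP_a95293_nt.RC (rd)
open Pool.MP_a95293_nt.CG (Cc)
open Pool.MP_a95293_nt.HN (costE)

private theorem Cas_prod {n : ℕ} {X : ℕ} (hX : 2 ≤ X) (r : Fin n → ℕ) (hr : ∀ i, 0 < r i)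
    (m : Fin n → ℝ) (hm : ∀ i, m i = Real.logb X (r i)) (S : Finset (Fin n)) :
    ∏ i ∈ S, (r i : ℝ) = (X : ℝ) ^ (∑ i ∈ S, m i) := by
  have hX0 : (0 : ℝ) < X := by
    have : 0 < X := by omega
    exact_mod_cast this
  have hX1 : (X : ℝ) ≠ 1 := by
    have : X ≠ 1 := by omega
    exact_mod_cast this
  rw [Real.rpow_sum_of_pos hX0]
  refine Finset.prod_congr rfl fun i _ => ?_
  rw [hm, Real.rpow_logb hX0 hX1 (by exact_mod_cast hr i)]

private theorem Cas_root {J : ℕ} (hJ : 1 ≤ J) {X r : ℕ} (h : r ^ J ≤ X ^ 2) :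
    (r : ℝ) ≤ (X : ℝ) ^ ((2 : ℝ) / J) := by
  have hJ0 : (0 : ℝ) < J := by exact_mod_cast hJ
  have h1 : ((r : ℝ)) ^ J ≤ (X : ℝ) ^ 2 := by exact_mod_cast h
  have h2 : (X : ℝ) ^ ((2 : ℝ) / J) = ((X : ℝ) ^ 2) ^ ((1 : ℝ) / J) := by
    rw [← Real.rpow_natCast (X : ℝ) 2, ← Real.rpow_mul (Nat.cast_nonneg X)]
    congr 1
    push_cast
    ring
  have h3 : (r : ℝ) = ((r : ℝ) ^ J) ^ ((1 : ℝ) / J) := by
    rw [← Real.rpow_natCast (r : ℝ) J, ← Real.rpow_mul (Nat.cast_nonneg r)]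
    rw [mul_one_div_cancel hJ0.ne', Real.rpow_one]
  rw [h2, h3]
  exact Real.rpow_le_rpow (by positivity) h1 (by positivity)

/-- the size of the bounded factor at level `L` -/
def kap (J L : ℕ) : ℕ := (J + 1) * ((J + 1) * (L + 3))

private theorem Cas_small {X κ E J t : ℕ} (h1 : 1 ≤ t) (h2 : t ≤ X ^ κ) : Cc X κ E J t :=
  ⟨0, t, fun i => i.elim0, fun i => i.elim0, Nat.zero_le _, ⟨h1, h2⟩, fun i => i.elim0,
    fun i => i.elim0, by simp⟩

theorem casS (n s : ℕ) (hn : 4 ≤ n) (hs : 1 ≤ s) (hsn : s < n) (ρ θ : ℝ)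
    (hρ1 : 1 - 2 / (n : ℝ) ≤ ρ) (hρ2 : 1 - 1 / (s : ℝ) ≤ ρ) (hθ : ρ < θ) :
    ∃ J : ℕ, ∀ Lv : ℕ → ℕ, Monotone Lv → ∀ (A : ℕ) (C : ℝ), 1 ≤ C → ∃ X₀ : ℕ, 2 ≤ X₀ ∧
    ∀ X : ℕ, X₀ ≤ X → ∀ x : Fin n → ℤ, Tq X A x →
    n ≤ s + (univ.filter fun j => X ^ Lv (n + 1) ≤ (x j).natAbs).card →
    (∃ i ≤ n, ∃ a b : Fin n, a ≠ b ∧ Cc X (kap J (Lv i)) (A * J) J (x a).natAbs ∧
      Cc X (kap J (Lv i)) (A * J) J (x b).natAbs ∧ X ^ Lv (i + 1) ≤ (x a).natAbs ∧
      costP x a b ≤ (X : ℝ) ^ θ) ∨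
    (∃ j k : Fin n, j ≠ k ∧ ∃ q : ℕ, 1 ≤ q ∧ q ∣ (x j).natAbs ∧ 2 * (x k).natAbs < q ∧
      (rd q : ℝ) * costP x j k ≤ (X : ℝ) ^ θ) ∨
    ∃ j a b : Fin n, j ≠ a ∧ j ≠ b ∧ a ≠ b ∧ ∃ q : ℕ, 1 ≤ q ∧ q ∣ (x j).natAbs ∧
      C * (X : ℝ) ^ 2 ≤ q ∧ (rd q : ℝ) * costE x j a b ≤ (X : ℝ) ^ θ := by
  classical
  have hd : 0 < θ - ρ := by linarith
  obtain ⟨J, hJdef⟩ : ∃ J : ℕ, J = ⌈2 / (θ - ρ)⌉₊ := ⟨_, rfl⟩
  have hJ1 : 1 ≤ J := by
    rw [hJdef]
    exact Nat.one_le_iff_ne_zero.2 (Nat.ceil_pos.2 (by positivity)).ne'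
  have hJ0 : (0 : ℝ) < J := by exact_mod_cast hJ1
  have hJ2 : (2 : ℝ) / J ≤ θ - ρ := by
    have h1 : 2 / (θ - ρ) ≤ J := by
      rw [hJdef]
      exact Nat.le_ceil _
    rw [div_le_iff₀ hd] at h1
    rw [div_le_iff₀ hJ0]
    linarith
  refine ⟨J, fun Lv hLv A C hC => ⟨max 2 ⌈C⌉₊, le_max_left _ _, fun X hX x hx hbig => ?_⟩⟩
  have hX2 : 2 ≤ X := (le_max_left _ _).trans hX
  have hXC : C ≤ X := (Nat.le_ceil C).trans (by exact_mod_cast (le_max_right 2 ⌈C⌉₊).trans hX)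
  have hX0 : (0 : ℝ) < X := by
    have : 0 < X := by omega
    exact_mod_cast this
  have hX1 : (1 : ℝ) < X := by
    have : 1 < X := by omega
    exact_mod_cast this
  have hr0 : ∀ i, 0 < rd (x i).natAbs := fun i => Pool.MP_a95293_nt.RC.rd_pos _
  have hrX : ∀ i, rd (x i).natAbs ≤ X := fun i =>
    (Finset.single_le_prod' (f := fun i => rd (x i).natAbs) (fun i _ => hr0 i)
      (Finset.mem_univ i)).trans hx.rad
  have hx1 : ∀ i, 1 ≤ (x i).natAbs := fun i => Int.natAbs_pos.2 (hx.ne i)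
  obtain ⟨m, hm⟩ : ∃ m : Fin n → ℝ, ∀ i, m i = Real.logb X (rd (x i).natAbs) :=
    ⟨fun i => Real.logb X (rd (x i).natAbs), fun _ => rfl⟩
  have hm0 : ∀ i, 0 ≤ m i := fun i => by
    rw [hm]
    exact Real.logb_nonneg hX1 (by exact_mod_cast hr0 i)
  have hprod := Cas_prod hX2 (fun i => rd (x i).natAbs) hr0 m hm
  have hsum : ∑ i, m i ≤ 1 := by
    have h1 : (X : ℝ) ^ (∑ i, m i) ≤ (X : ℝ) ^ (1 : ℝ) := by
      rw [← hprod, Real.rpow_one]
      exact_mod_cast hx.rad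
    exact (Real.rpow_le_rpow_left_iff hX1).1 h1
  -- the level
  obtain ⟨i, hin, hlev⟩ := Pool.MP_a95293_nt.CG.level X n (by omega) Lv hLv
    (univ.image fun j => (x j).natAbs) (Finset.card_image_le.trans (by simp))
  have hlev' : ∀ j, (x j).natAbs < X ^ Lv i ∨ X ^ Lv (i + 1) ≤ (x j).natAbs := fun j =>
    hlev _ (Finset.mem_image_of_mem _ (Finset.mem_univ j))
  set S : Finset (Fin n) := univ.filter fun j => (x j).natAbs < X ^ Lv i with hSdef
  have hSc : S.card ≤ s := by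
    have h1 : Disjoint S (univ.filter fun j => X ^ Lv (n + 1) ≤ (x j).natAbs) := by
      rw [Finset.disjoint_left]
      intro j h2 h3
      have h4 := (Finset.mem_filter.1 h2).2
      have h5 := (Finset.mem_filter.1 h3).2
      have h6 : X ^ Lv i ≤ X ^ Lv (n + 1) := Nat.pow_le_pow_right (by omega) (hLv (by omega))
      omega
    have h2 := Finset.card_le_univ (S ∪ univ.filter fun j => X ^ Lv (n + 1) ≤ (x j).natAbs)
    rw [Finset.card_union_of_disjoint h1, Fintype.card_fin] at h2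
    omega
  set P : Finset (Fin n) := univ.filter fun j => j ∉ S ∧
    X ^ ((J + 1) * (Lv i + 3)) ≤ Pool.MP_a95293_nt.CG.Qs J X (x j).natAbs with hPdef
  have hPq : ∀ j ∈ P, ∃ q : ℕ, q ∣ (x j).natAbs ∧ X ^ (Lv i + 3) ≤ q ∧
      (rd q : ℝ) ≤ (X : ℝ) ^ (θ - ρ) := by
    intro j hj
    obtain ⟨q, hq, hXq, hrq⟩ := Pool.MP_a95293_nt.CG.spread J X (x j).natAbs (Lv i + 3) hX2
      (hx1 j) (hrX j) (Finset.mem_filter.1 hj).2.2
    exact ⟨q, hq, hXq, (Cas_root hJ1 hrq).trans (Real.rpow_le_rpow_of_exponent_le hX1.le hJ2)⟩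
  have hCc : ∀ j, j ∉ P → Cc X (kap J (Lv i)) (A * J) J (x j).natAbs := by
    intro j hj
    by_cases hjS : j ∈ S
    · refine Cas_small (hx1 j) (le_trans (Finset.mem_filter.1 hjS).2.le ?_)
      refine Nat.pow_le_pow_right (by omega) ?_
      have h1 : Lv i + 3 ≤ (J + 1) * (Lv i + 3) := Nat.le_mul_of_pos_left _ (by omega)
      have h2 : (J + 1) * (Lv i + 3) ≤ (J + 1) * ((J + 1) * (Lv i + 3)) :=
        Nat.le_mul_of_pos_left _ (by omega)
      unfold kap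
      omega
    · have hi' : Pool.MP_a95293_nt.CG.Qs J X (x j).natAbs < X ^ ((J + 1) * (Lv i + 3)) := by
        by_contra hcon
        exact hj (Finset.mem_filter.2 ⟨Finset.mem_univ j, hjS, not_lt.1 hcon⟩)
      exact (Pool.MP_a95293_nt.CG.conc J X (x j).natAbs ((J + 1) * (Lv i + 3)) A hX2 (hx1 j)
        (hrX j) (hx.le j) hi').1
  have hP2 : ∀ a b : Fin n, a ≠ b → costP x a b = (X : ℝ) ^ (∑ i, m i - m a - m b) := by
    intro a b hab
    unfold costP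
    have e1 : ∏ i ∈ univ \ {a, b}, (rd (x i).natAbs : ℝ) =
        (X : ℝ) ^ (∑ i ∈ univ \ {a, b}, m i) := hprod _
    have e5 : ∑ i ∈ univ \ {a, b}, m i = ∑ i, m i - m a - m b := by
      have e7 := Finset.sum_sdiff (f := m) (Finset.subset_univ ({a, b} : Finset (Fin n)))
      rw [← e7, Finset.sum_pair hab]
      ring
    rw [e1, e5]
  have hmul : ∀ (q : ℕ) (e : ℝ), (rd q : ℝ) ≤ (X : ℝ) ^ (θ - ρ) → e ≤ ρ →
      (rd q : ℝ) * (X : ℝ) ^ e ≤ (X : ℝ) ^ θ := by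
    intro q e hq he
    have h3 : (X : ℝ) ^ e ≤ (X : ℝ) ^ ρ := Real.rpow_le_rpow_of_exponent_le hX1.le he
    calc (rd q : ℝ) * (X : ℝ) ^ e ≤ (X : ℝ) ^ (θ - ρ) * (X : ℝ) ^ ρ :=
          mul_le_mul hq h3 (by positivity) (by positivity)
      _ = (X : ℝ) ^ θ := by
          rw [← Real.rpow_add hX0]
          congr 1
          ring
  rcases lpN n s hn hs m hm0 hsum P S hSc (by omega) ρ hρ1 hρ2 with
    ⟨j, hjP, a, b, hja, hjb, hab, h1⟩ | ⟨j, hjP, k, hkS, hjk, h1⟩ | ⟨a, b, hab, haP, hbP, haS, h1⟩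
  · right
    right
    obtain ⟨q, hq, hXq, hrq⟩ := hPq j hjP
    refine ⟨j, a, b, hja, hjb, hab, q, ?_, hq, ?_, ?_⟩
    · exact le_trans (Nat.one_le_pow _ _ (by omega)) hXq
    · have h3 : X ^ 3 ≤ X ^ (Lv i + 3) := Nat.pow_le_pow_right (by omega) (by omega)
      calc C * (X : ℝ) ^ 2 ≤ X * (X : ℝ) ^ 2 := by gcongr
        _ = (X : ℝ) ^ 3 := by ring
        _ ≤ q := by exact_mod_cast h3.trans hXq
    · have hcost : costE x j a b = (X : ℝ) ^ (∑ i, m i - m j - (m a + m b) / 2) := by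
        unfold costE
        have e1 : ∏ i ∈ univ \ {j, a, b}, (rd (x i).natAbs : ℝ) =
            (X : ℝ) ^ (∑ i ∈ univ \ {j, a, b}, m i) := hprod _
        have e2 : Real.sqrt ((rd (x a).natAbs : ℝ) * (rd (x b).natAbs : ℝ)) =
            (X : ℝ) ^ ((m a + m b) / 2) := by
          have e3 : (rd (x a).natAbs : ℝ) * (rd (x b).natAbs : ℝ) = (X : ℝ) ^ (m a + m b) := by
            have e4 := hprod {a, b}
            rwa [Finset.prod_pair hab, Finset.sum_pair hab] at e4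
          rw [e3, Real.sqrt_eq_rpow, ← Real.rpow_mul hX0.le]
          congr 1
          ring
        have e5 : ∑ i ∈ univ \ {j, a, b}, m i = ∑ i, m i - (m j + (m a + m b)) := by
          have e6 : ∑ i ∈ ({j, a, b} : Finset (Fin n)), m i = m j + (m a + m b) := by
            rw [Finset.sum_insert, Finset.sum_pair hab]
            simp only [Finset.mem_insert, Finset.mem_singleton, not_or]
            exact ⟨hja, hjb⟩
          have e7 := Finset.sum_sdiff (f := m) (Finset.subset_univ ({j, a, b} : Finset (Fin n)))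
          rw [← e7, e6]
          ring
        rw [e1, e2, ← Real.rpow_add hX0, e5]
        congr 1
        ring
      rw [hcost]
      exact hmul q _ hrq h1
  · right
    left
    obtain ⟨q, hq, hXq, hrq⟩ := hPq j hjP
    refine ⟨j, k, hjk, q, ?_, hq, ?_, ?_⟩
    · exact le_trans (Nat.one_le_pow _ _ (by omega)) hXq
    · have h2 := (Finset.mem_filter.1 hkS).2
      have h3 : 2 * X ^ Lv i ≤ X ^ (Lv i + 3) := by
        calc 2 * X ^ Lv i ≤ X * X ^ Lv i := Nat.mul_le_mul_right _ hX2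
          _ = X ^ (Lv i + 1) := by ring
          _ ≤ X ^ (Lv i + 3) := Nat.pow_le_pow_right (by omega) (by omega)
      omega
    · rw [hP2 j k hjk]
      exact hmul q _ hrq h1
  · left
    refine ⟨i, hin, a, b, hab, hCc a haP, hCc b hbP, ?_, ?_⟩
    · rcases hlev' a with h2 | h2
      · exact absurd (Finset.mem_filter.2 ⟨Finset.mem_univ a, h2⟩) haS
      · exact h2
    · rw [hP2 a b hab]
      exact Real.rpow_le_rpow_of_exponent_le hX1.le (h1.trans hθ.le)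

end Pool.MP_a95293_nt.NN
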