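import Pool.Agent.Lib_MP_a95293_nn.FibP
import Pool.Agent.Lib_MP_a95293_hn.Gcn

/-!
# THEOREM N: the moves G2 (two entries of bounded complexity) and Q (a spread and a small entry)

`famC`: all entries except `a`, `b` and a divisor datum `q` are fixed, the fibres have at most `W` elements: `gcpN` with `f x i = q x` for `i = a`, `1` for `i = b`, `(x i).natAbs` otherwise, weight `2 ^ n * W` (signs).
`famP`: `q = 1`, fibres by `fibP`. `famQ`: the fibres have one element: `t j + t k` is fixed, `q ∣ t j`, so `t k` is fixed modulo `q`, and `2 |t k| < q`.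
-/

set_option autoImplicit false

namespace Pool.MP_a95293_nt.NN

open Finset
open Pool.MP_a95293_nt.RC (rd)
open Pool.MP_a95293_nt.CG (Cc)
open Pool.MP_a95293_nt.HN (gcpN)

/-- signs and absolute values determine an integer -/
private theorem FamP_eq {x y : ℤ} (h : decide (0 < x) = decide (0 < y))
    (h2 : x.natAbs = y.natAbs) : x = y := by
  have h3 := decide_eq_decide.1 h
  by_cases h0 : 0 < x
  · have := h3.1 h0
    omega
  · have : ¬ 0 < y := fun h1 => h0 (h3.2 h1)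
    omega

private theorem FamP_costP {n : ℕ} (x : Fin n → ℤ) (a b : Fin n) (hab : a ≠ b) (q : ℕ) :
    ∏ i, (rd (if i = a then q else if i = b then 1 else (x i).natAbs) : ℝ) =
      (rd q : ℝ) * costP x a b := by
  classical
  have h1 := Finset.prod_sdiff (f := fun i => (rd (if i = a then q else if i = b then 1 else
    (x i).natAbs) : ℝ)) (Finset.subset_univ ({a, b} : Finset (Fin n)))
  rw [← h1, Finset.prod_pair hab, if_pos rfl, if_neg hab.symm, if_pos rfl]
  have h2 : ((rd 1 : ℕ) : ℝ) = 1 := by simp [rd]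
  rw [h2, mul_one, mul_comm]
  congr 1
  unfold costP
  refine Finset.prod_congr rfl fun i hi => ?_
  rw [Finset.mem_sdiff, Finset.mem_insert, Finset.mem_singleton, not_or] at hi
  rw [if_neg hi.2.1, if_neg hi.2.2]

theorem famC (n A : ℕ) (ε : ℝ) (hε : 0 < ε) : ∃ C : ℝ, 1 ≤ C ∧ ∀ (X : ℕ) (Y W : ℝ), 1 ≤ X →
    0 ≤ Y → 0 ≤ W → ∀ (S : Finset (Fin n → ℤ)) (a b : Fin n), a ≠ b →
    ∀ q : (Fin n → ℤ) → ℕ, (∀ x ∈ S, Tq X A x ∧ 1 ≤ q x ∧ q x ≤ X ^ A ∧
      (rd (q x) : ℝ) * costP x a b ≤ Y) →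
    (∀ x ∈ S, ((S.filter fun t => q t = q x ∧ ∀ i, i ≠ a → i ≠ b → t i = x i).card : ℝ) ≤ W) →
    (S.card : ℝ) ≤ C * (X : ℝ) ^ ε * (W * Y) := by
  classical
  obtain ⟨Cg, hCg, hg⟩ := gcpN n A ε hε
  have h2n : (1 : ℝ) ≤ 2 ^ n := one_le_pow₀ (by norm_num)
  refine ⟨Cg * 2 ^ n, one_le_mul_of_one_le_of_one_le hCg h2n, ?_⟩
  intro X Y W hX hY hW S a b hab q hS hfib
  have hXA : 1 ≤ X ^ A := Nat.one_le_pow _ _ hX
  set f : (Fin n → ℤ) → Fin n → ℕ := fun x i =>
    if i = a then q x else if i = b then 1 else (x i).natAbs with hf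
  have main := hg X (2 ^ n * W * Y) hX (by positivity) S f (fun _ => 2 ^ n * W) ?_ ?_ ?_
  · refine main.trans (le_of_eq ?_)
    ring
  · intro x hx i
    obtain ⟨h1, h2, h3, -⟩ := hS x hx
    rw [hf]
    dsimp only
    split_ifs
    · exact ⟨h2, h3⟩
    · exact ⟨le_refl _, hXA⟩
    · exact ⟨Int.natAbs_pos.2 (h1.ne i), h1.le i⟩
  · intro x hx
    refine ⟨x, hx, rfl, ?_⟩
    have h1 := Finset.card_eq_sum_card_fiberwise
      (f := fun (t : Fin n → ℤ) (i : Fin n) => decide (0 < t i))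
      (s := S.filter fun t => f t = f x)
      (t := (univ : Finset (Fin n → Bool))) (fun _ _ => Finset.mem_coe.2 (Finset.mem_univ _))
    rw [h1]
    push_cast
    have h2 : ∀ d ∈ (univ : Finset (Fin n → Bool)),
        (((S.filter fun t => f t = f x).filter fun t =>
          (fun i : Fin n => decide (0 < t i)) = d).card : ℝ) ≤ W := by
      intro d _
      by_cases hne : ((S.filter fun t => f t = f x).filter fun t =>
          (fun i : Fin n => decide (0 < t i)) = d).Nonempty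
      · obtain ⟨t0, ht0⟩ := hne
        obtain ⟨ht1, ht2⟩ := Finset.mem_filter.1 ht0
        obtain ⟨ht3, ht4⟩ := Finset.mem_filter.1 ht1
        refine le_trans ?_ (hfib t0 ht3)
        have hsub : ((S.filter fun t => f t = f x).filter fun t =>
            (fun i : Fin n => decide (0 < t i)) = d) ⊆
            S.filter fun t => q t = q t0 ∧ ∀ i, i ≠ a → i ≠ b → t i = t0 i := by
          intro t ht
          obtain ⟨g1, g2⟩ := Finset.mem_filter.1 ht
          obtain ⟨g3, g4⟩ := Finset.mem_filter.1 g1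
          have hff : f t = f t0 := g4.trans ht4.symm
          rw [Finset.mem_filter]
          refine ⟨g3, ?_, ?_⟩
          · have := congrFun hff a
            rw [hf] at this
            dsimp only at this
            rwa [if_pos rfl, if_pos rfl] at this
          · intro i hia hib
            have e1 := congrFun hff i
            rw [hf] at e1
            dsimp only at e1
            rw [if_neg hia, if_neg hia, if_neg hib, if_neg hib] at e1
            have e2 := congrFun (g2.trans ht2.symm) i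
            exact FamP_eq e2 e1
        exact_mod_cast Finset.card_le_card hsub
      · rw [Finset.not_nonempty_iff_eq_empty] at hne
        rw [hne, Finset.card_empty]
        exact_mod_cast hW
    refine (Finset.sum_le_sum h2).trans ?_
    rw [Finset.sum_const, Finset.card_univ, Fintype.card_fun, Fintype.card_bool, Fintype.card_fin,
      nsmul_eq_mul]
    push_cast
    exact le_refl _
  · intro x hx
    have e1 : ∏ i, (rd (f x i) : ℝ) = (rd (q x) : ℝ) * costP x a b := FamP_costP x a b hab (q x)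
    rw [e1]
    have h4 := (hS x hx).2.2.2
    have h5 : 0 ≤ 2 ^ n * W := by positivity
    calc (rd (q x) : ℝ) * costP x a b * (2 ^ n * W) ≤ Y * (2 ^ n * W) :=
          mul_le_mul_of_nonneg_right h4 h5
      _ = 2 ^ n * W * Y := by ring

/-- the sum of the entries except `a`, `b` -/
private theorem FamP_sum {n : ℕ} (x : Fin n → ℤ) (a b : Fin n) (hab : a ≠ b)
    (hs : ∑ i, x i = 0) : x a + x b + ∑ i ∈ univ \ {a, b}, x i = 0 := by
  classical
  have h1 := Finset.sum_sdiff (f := x) (Finset.subset_univ ({a, b} : Finset (Fin n)))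
  rw [Finset.sum_pair hab] at h1
  rw [← hs, ← h1]
  ring

private theorem FamP_sum_eq {n : ℕ} {x t : Fin n → ℤ} {a b : Fin n}
    (h : ∀ i, i ≠ a → i ≠ b → t i = x i) :
    ∑ i ∈ univ \ {a, b}, t i = ∑ i ∈ univ \ {a, b}, x i := by
  classical
  refine Finset.sum_congr rfl fun i hi => ?_
  rw [Finset.mem_sdiff, Finset.mem_insert, Finset.mem_singleton, not_or] at hi
  exact h i hi.2.1 hi.2.2

private theorem FamP_ext {n : ℕ} {t u : Fin n → ℤ} {a b : Fin n}
    (h : ∀ i, i ≠ a → i ≠ b → t i = u i) (ha : t a = u a) (hb : t b = u b) : t = u := by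
  funext i
  by_cases hia : i = a
  · rw [hia, ha]
  · by_cases hib : i = b
    · rw [hib, hb]
    · exact h i hia hib

/-- splitting according to a pair of indices -/
private theorem FamP_split {n : ℕ} (S : Finset (Fin n → ℤ)) (Q : Fin n → Fin n → (Fin n → ℤ) → Prop)
    (hS : ∀ x ∈ S, ∃ a b : Fin n, a ≠ b ∧ Q a b x) (B : ℝ) (hB : 0 ≤ B)
    (h : ∀ a b : Fin n, a ≠ b → ∀ S' ⊆ S, (∀ x ∈ S', Q a b x) → (S'.card : ℝ) ≤ B) :
    (S.card : ℝ) ≤ (n : ℝ) ^ 2 * B := by
  classical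
  have hsub : S ⊆ (univ : Finset (Fin n × Fin n)).biUnion fun p =>
      S.filter fun x => p.1 ≠ p.2 ∧ Q p.1 p.2 x := by
    intro x hx
    obtain ⟨a, b, hab, hq⟩ := hS x hx
    rw [Finset.mem_biUnion]
    exact ⟨(a, b), Finset.mem_univ _, Finset.mem_filter.2 ⟨hx, hab, hq⟩⟩
  have h1 : S.card ≤ ∑ p : Fin n × Fin n, (S.filter fun x => p.1 ≠ p.2 ∧ Q p.1 p.2 x).card :=
    (Finset.card_le_card hsub).trans Finset.card_biUnion_le
  have h2 : ∀ p ∈ (univ : Finset (Fin n × Fin n)),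
      ((S.filter fun x => p.1 ≠ p.2 ∧ Q p.1 p.2 x).card : ℝ) ≤ B := by
    intro p _
    by_cases hp : p.1 ≠ p.2
    · exact h p.1 p.2 hp _ (Finset.filter_subset _ _) fun x hx => (Finset.mem_filter.1 hx).2.2
    · have : (S.filter fun x => p.1 ≠ p.2 ∧ Q p.1 p.2 x) = ∅ := by
        rw [Finset.filter_eq_empty_iff]
        intro x _ hx
        exact hp hx.1
      rw [this, Finset.card_empty]
      exact_mod_cast hB
  calc (S.card : ℝ) ≤ ((∑ p : Fin n × Fin n,
        (S.filter fun x => p.1 ≠ p.2 ∧ Q p.1 p.2 x).card : ℕ) : ℝ) := by exact_mod_cast h1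
    _ = ∑ p : Fin n × Fin n, ((S.filter fun x => p.1 ≠ p.2 ∧ Q p.1 p.2 x).card : ℝ) := by
        push_cast
        rfl
    _ ≤ ∑ _p : Fin n × Fin n, B := Finset.sum_le_sum h2
    _ = (n : ℝ) ^ 2 * B := by
        rw [Finset.sum_const, Finset.card_univ, Fintype.card_prod, Fintype.card_fin, nsmul_eq_mul]
        push_cast
        ring

theorem famP (n J κ : ℕ) (ε : ℝ) (hε : 0 < ε) : ∃ h : ℕ, ∀ A E : ℕ, ∃ C : ℝ, 1 ≤ C ∧
    ∀ (X : ℕ) (Y : ℝ), 1 ≤ X → 0 ≤ Y → ∀ S : Finset (Fin n → ℤ),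
      (∀ x ∈ S, Tq X A x ∧ ∃ a b : Fin n, a ≠ b ∧ Cc X κ E J (x a).natAbs ∧
        Cc X κ E J (x b).natAbs ∧ (2 * X ^ h < (x a).natAbs ∨ 2 * X ^ h < (x b).natAbs) ∧
        costP x a b ≤ Y) →
      (S.card : ℝ) ≤ C * (X : ℝ) ^ ε * Y := by
  classical
  obtain ⟨h, hG⟩ := fibP J κ (ε / 2) (by linarith)
  refine ⟨h, fun A E => ?_⟩
  obtain ⟨C1, h11, hC1⟩ := hG (A + 1) E
  obtain ⟨C2, h21, hC2⟩ := famC n A (ε / 2) (by linarith)
  have hC12 : 1 ≤ C1 * C2 := one_le_mul_of_one_le_of_one_le h11 h21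
  have hn2 : (0 : ℝ) ≤ (n : ℝ) ^ 2 := by positivity
  refine ⟨((n : ℝ) ^ 2 + 1) * (C1 * C2), by nlinarith, fun X Y hX hY S hS => ?_⟩
  have hXR : (1 : ℝ) ≤ X := by exact_mod_cast hX
  have hXX : (X : ℝ) ^ (ε / 2) * (X : ℝ) ^ (ε / 2) = (X : ℝ) ^ ε := by
    rw [← Real.rpow_add (by linarith)]
    congr 1
    ring
  have hXe0 : (0 : ℝ) < (X : ℝ) ^ (ε / 2) := Real.rpow_pos_of_pos (by linarith) _
  have hXA : 1 ≤ X ^ A := Nat.one_le_pow _ _ hX
  have main := FamP_split S (fun a b x => Tq X A x ∧ Cc X κ E J (x a).natAbs ∧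
        Cc X κ E J (x b).natAbs ∧ (2 * X ^ h < (x a).natAbs ∨ 2 * X ^ h < (x b).natAbs) ∧
        costP x a b ≤ Y) (fun x hx => by
          obtain ⟨h1, a, b, hab, h2⟩ := hS x hx
          exact ⟨a, b, hab, h1, h2⟩) (C2 * (X : ℝ) ^ (ε / 2) * (C1 * (X : ℝ) ^ (ε / 2) * Y))
        (by positivity) ?_
  · refine main.trans ?_
    have e1 : C2 * (X : ℝ) ^ (ε / 2) * (C1 * (X : ℝ) ^ (ε / 2) * Y) =
        C1 * C2 * ((X : ℝ) ^ (ε / 2) * (X : ℝ) ^ (ε / 2)) * Y := by ring
    rw [e1, hXX]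
    have h3 : 0 ≤ C1 * C2 * (X : ℝ) ^ ε * Y := by
      have : (0 : ℝ) < (X : ℝ) ^ ε := Real.rpow_pos_of_pos (by linarith) _
      positivity
    nlinarith
  · intro a b hab S' _ hS'
    refine hC2 X Y (C1 * (X : ℝ) ^ (ε / 2)) hX hY (by positivity) S' a b hab (fun _ => 1) ?_ ?_
    · intro x hx
      refine ⟨(hS' x hx).1, le_refl _, hXA, ?_⟩
      have h2 : ((rd 1 : ℕ) : ℝ) = 1 := by simp [rd]
      rw [h2, one_mul]
      exact (hS' x hx).2.2.2.2
    · intro x hx
      obtain ⟨hT, -, -, hbig, -⟩ := hS' x hx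
      have hX2 : 2 ≤ X := by
        by_contra hcon
        have hX1 : X = 1 := by omega
        rw [hX1, one_pow] at hbig
        have e1 := hT.le a
        have e2 := hT.le b
        rw [hX1, one_pow] at e1 e2
        omega
      obtain ⟨N, hN⟩ : ∃ N : ℤ, N = ∑ i ∈ univ \ {a, b}, x i := ⟨_, rfl⟩
      have hsum := FamP_sum x a b hab hT.sum
      rw [← hN] at hsum
      have hN0 : N ≠ 0 := by
        intro h0
        rw [h0, add_zero] at hsum
        exact hT.two a b hab hsum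
      have hNA : N.natAbs ≤ X ^ (A + 1) := by
        have e1 := hT.le a
        have e2 := hT.le b
        have e3 : N.natAbs ≤ (x a).natAbs + (x b).natAbs := by omega
        calc N.natAbs ≤ X ^ A + X ^ A := by omega
          _ = 2 * X ^ A := by ring
          _ ≤ X * X ^ A := Nat.mul_le_mul_right _ hX2
          _ = X ^ (A + 1) := by ring
      have hAA : X ^ A ≤ X ^ (A + 1) := Nat.pow_le_pow_right hX (by omega)
      obtain ⟨F, hF⟩ : ∃ F, F = S'.filter fun t => (fun _ : Fin n → ℤ => 1) t =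
        (fun _ : Fin n → ℤ => 1) x ∧ ∀ i, i ≠ a → i ≠ b → t i = x i := ⟨_, rfl⟩
      have hmem : ∀ t ∈ F, t ∈ S' ∧ ∀ i, i ≠ a → i ≠ b → t i = x i := by
        intro t ht
        rw [hF, Finset.mem_filter] at ht
        exact ⟨ht.1, ht.2.2⟩
      rw [← hF]
      have hinj : Set.InjOn (fun t : Fin n → ℤ => (t a, t b)) (F : Set (Fin n → ℤ)) := by
        intro t ht u hu htu
        have e := (Prod.mk.injEq _ _ _ _).mp htu
        refine FamP_ext (a := a) (b := b) (fun i hia hib => ?_) e.1 e.2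
        rw [(hmem t ht).2 i hia hib, (hmem u hu).2 i hia hib]
      rw [← Finset.card_image_of_injOn hinj]
      refine hC1 X hX N _ hN0 hNA ?_
      intro z hz
      obtain ⟨t, ht, rfl⟩ := Finset.mem_image.1 hz
      obtain ⟨ht1, ht2⟩ := hmem t ht
      obtain ⟨hT', c1, c2, c3, -⟩ := hS' t ht1
      have hs2 := FamP_sum t a b hab hT'.sum
      rw [FamP_sum_eq ht2, ← hN] at hs2
      exact ⟨hT'.ne a, hT'.ne b, hT'.cop a b hab, hs2, (hT'.le a).trans hAA, (hT'.le b).trans hAA,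
        c1, c2, c3⟩

theorem famQ (n A : ℕ) (ε : ℝ) (hε : 0 < ε) : ∃ C : ℝ, 1 ≤ C ∧ ∀ (X : ℕ) (Y : ℝ), 1 ≤ X →
    0 ≤ Y → ∀ S : Finset (Fin n → ℤ),
      (∀ x ∈ S, Tq X A x ∧ ∃ j k : Fin n, j ≠ k ∧ ∃ q : ℕ, 1 ≤ q ∧ q ∣ (x j).natAbs ∧
        2 * (x k).natAbs < q ∧ (rd q : ℝ) * costP x j k ≤ Y) →
      (S.card : ℝ) ≤ C * (X : ℝ) ^ ε * Y := by
  classical
  obtain ⟨C2, h21, hC2⟩ := famC n A ε hε
  have hn2 : (0 : ℝ) ≤ (n : ℝ) ^ 2 := by positivity
  refine ⟨((n : ℝ) ^ 2 + 1) * C2, by nlinarith, fun X Y hX hY S hS => ?_⟩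
  have hXR : (1 : ℝ) ≤ X := by exact_mod_cast hX
  have hXe0 : (0 : ℝ) < (X : ℝ) ^ ε := Real.rpow_pos_of_pos (by linarith) _
  have main := FamP_split S (fun j k x => Tq X A x ∧ ∃ q : ℕ, 1 ≤ q ∧ q ∣ (x j).natAbs ∧
        2 * (x k).natAbs < q ∧ (rd q : ℝ) * costP x j k ≤ Y) (fun x hx => by
          obtain ⟨h1, a, b, hab, h2⟩ := hS x hx
          exact ⟨a, b, hab, h1, h2⟩) (C2 * (X : ℝ) ^ ε * (1 * Y)) (by positivity) ?_
  · refine main.trans ?_
    have h3 : 0 ≤ C2 * (X : ℝ) ^ ε * Y := by positivity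
    nlinarith
  · intro j k hjk S' _ hS'
    have hq' : ∀ x, ∃ q : ℕ, x ∈ S' → 1 ≤ q ∧ q ∣ (x j).natAbs ∧
        2 * (x k).natAbs < q ∧ (rd q : ℝ) * costP x j k ≤ Y := by
      intro x
      by_cases hx : x ∈ S'
      · obtain ⟨-, q, hq⟩ := hS' x hx
        exact ⟨q, fun _ => hq⟩
      · exact ⟨1, fun h => absurd h hx⟩
    choose q hq using hq'
    refine hC2 X Y 1 hX hY zero_le_one S' j k hjk q ?_ ?_
    · intro x hx
      obtain ⟨h1, h2, -, h4⟩ := hq x hx
      have hT := (hS' x hx).1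
      exact ⟨hT, h1, (Nat.le_of_dvd (Int.natAbs_pos.2 (hT.ne j)) h2).trans (hT.le j), h4⟩
    · intro x hx
      have hcard : (S'.filter fun t => q t = q x ∧ ∀ i, i ≠ j → i ≠ k → t i = x i).card ≤ 1 := by
        rw [Finset.card_le_one]
        intro t ht u hu
        obtain ⟨t1, t2, t3⟩ := Finset.mem_filter.1 ht
        obtain ⟨u1, u2, u3⟩ := Finset.mem_filter.1 hu
        have hst := FamP_sum t j k hjk (hS' t t1).1.sum
        have hsu := FamP_sum u j k hjk (hS' u u1).1.sum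
        rw [FamP_sum_eq t3] at hst
        rw [FamP_sum_eq u3] at hsu
        obtain ⟨-, d1, b1, -⟩ := hq t t1
        obtain ⟨-, d2, b2, -⟩ := hq u u1
        rw [t2] at d1 b1
        rw [u2] at d2 b2
        have d1' : ((q x : ℕ) : ℤ) ∣ t j := Int.natCast_dvd.2 d1
        have d2' : ((q x : ℕ) : ℤ) ∣ u j := Int.natCast_dvd.2 d2
        have d3 : ((q x : ℕ) : ℤ) ∣ t k - u k := by
          have : t k - u k = u j - t j := by linarith
          rw [this]
          exact dvd_sub d2' d1'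
        have hk : t k = u k := by
          have h0 : t k - u k = 0 := by
            refine Int.eq_zero_of_abs_lt_dvd d3 ?_
            rw [abs_lt]
            constructor <;> omega
          linarith
        have hj : t j = u j := by linarith
        exact FamP_ext (a := j) (b := k) (fun i hia hib => by rw [t3 i hia hib, u3 i hia hib]) hj hk
      exact_mod_cast hcard

end Pool.MP_a95293_nt.NN
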