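import Pool.Agent.Lib_MP_a95293_nn.FamE
import Pool.Agent.Lib_MP_a95293_nn.FamP
import Pool.Agent.Lib_MP_a95293_nn.Cas

/-!
# THEOREM N: the count at one scale

`ρ = max (1 - 2 / n) (1 - 1 / s)`, `θ' = (ρ + θ) / 2`, `ε = θ - θ'`. `casS` gives `J`. `famP n J (kap J L) ε` gives `hf L`. `Lv 0 = 0`, `Lv (i + 1) = Lv i + hf (Lv i) + 2`, `H = Lv (n + 1)`. The set is covered by the `n + 1` sets of the move G2 at the levels
`i ≤ n` (`2 X ^ h < X ^ (h + 2) ≤ |x a|`), the set of the move Q and the set of the move E.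
-/

set_option autoImplicit false

namespace Pool.MP_a95293_nt.NN

open Finset
open Pool.MP_a95293_nt.RC (rd)
open Pool.MP_a95293_nt.CG (Cc)
open Pool.MP_a95293_nt.HN (costE)

/-- the levels -/
def Lvl (hf : ℕ → ℕ) : ℕ → ℕ
  | 0 => 0
  | i + 1 => Lvl hf i + hf (Lvl hf i) + 2

private theorem Lvl_mono (hf : ℕ → ℕ) : Monotone (Lvl hf) := by
  refine monotone_nat_of_le_succ fun i => ?_
  show Lvl hf i ≤ Lvl hf i + hf (Lvl hf i) + 2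
  omega

private theorem Count_rd_le {n X : ℕ} (x : Fin n → ℤ) (h : ∏ i, rd (x i).natAbs ≤ X) (a : Fin n) :
    rd (x a).natAbs ≤ X := by
  have hpos : 0 < ∏ i, rd (x i).natAbs := prod_pos fun i _ => Pool.MP_a95293_nt.RC.rd_pos _
  exact (Nat.le_of_dvd hpos (dvd_prod_of_mem _ (mem_univ a))).trans h

theorem countS (n s : ℕ) (hn : 4 ≤ n) (hs : 1 ≤ s) (hsn : s < n) (θ : ℝ)
    (hθ1 : 1 - 2 / (n : ℝ) < θ) (hθ2 : 1 - 1 / (s : ℝ) < θ) : ∃ H : ℕ, ∀ A : ℕ,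
    ∃ C : ℝ, 0 ≤ C ∧ ∃ X₀ : ℕ, 1 ≤ X₀ ∧ ∀ X : ℕ, X₀ ≤ X → ∀ S : Finset (Fin n → ℤ),
      (∀ x ∈ S, Tq X A x ∧ n ≤ s + (univ.filter fun j => X ^ H ≤ (x j).natAbs).card) →
      (S.card : ℝ) ≤ C * (X : ℝ) ^ θ := by
  classical
  obtain ⟨ρ, hρ⟩ : ∃ ρ : ℝ, ρ = max (1 - 2 / (n : ℝ)) (1 - 1 / (s : ℝ)) := ⟨_, rfl⟩
  have hρθ : ρ < θ := by
    rw [hρ]
    exact max_lt hθ1 hθ2
  have hρ1 : 1 - 2 / (n : ℝ) ≤ ρ := by
    rw [hρ]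
    exact le_max_left _ _
  have hρ2 : 1 - 1 / (s : ℝ) ≤ ρ := by
    rw [hρ]
    exact le_max_right _ _
  obtain ⟨θ', hθ'⟩ : ∃ θ' : ℝ, θ' = (ρ + θ) / 2 := ⟨_, rfl⟩
  have t1 : ρ < θ' := by linarith
  have t2 : 0 < θ - θ' := by linarith
  obtain ⟨J, hcas⟩ := casS n s hn hs hsn ρ θ' hρ1 hρ2 t1
  have hfam : ∀ L : ℕ, ∃ h : ℕ, ∀ A E : ℕ, ∃ C : ℝ, 1 ≤ C ∧
    ∀ (X : ℕ) (Y : ℝ), 1 ≤ X → 0 ≤ Y → ∀ S : Finset (Fin n → ℤ),
      (∀ x ∈ S, Tq X A x ∧ ∃ a b : Fin n, a ≠ b ∧ Cc X (kap J L) E J (x a).natAbs ∧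
        Cc X (kap J L) E J (x b).natAbs ∧ (2 * X ^ h < (x a).natAbs ∨ 2 * X ^ h < (x b).natAbs) ∧
        costP x a b ≤ Y) →
      (S.card : ℝ) ≤ C * (X : ℝ) ^ (θ - θ') * Y := fun L => famP n J (kap J L) (θ - θ') t2
  choose hf hhf using hfam
  refine ⟨Lvl hf (n + 1), fun A => ?_⟩
  have hfam2 : ∀ L : ℕ, ∃ C : ℝ, 1 ≤ C ∧
    ∀ (X : ℕ) (Y : ℝ), 1 ≤ X → 0 ≤ Y → ∀ S : Finset (Fin n → ℤ),
      (∀ x ∈ S, Tq X A x ∧ ∃ a b : Fin n, a ≠ b ∧ Cc X (kap J L) (A * J) J (x a).natAbs ∧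
        Cc X (kap J L) (A * J) J (x b).natAbs ∧
        (2 * X ^ hf L < (x a).natAbs ∨ 2 * X ^ hf L < (x b).natAbs) ∧ costP x a b ≤ Y) →
      (S.card : ℝ) ≤ C * (X : ℝ) ^ (θ - θ') * Y := fun L => hhf L A (A * J)
  choose Cf hCf1 hCf using hfam2
  obtain ⟨CQ, hCQ1, hCQ⟩ := famQ n A (θ - θ') t2
  obtain ⟨CE, hCE1, hCE⟩ := famE n A (θ - θ') t2
  obtain ⟨X₀, hX₀2, hX₀⟩ := hcas (Lvl hf) (Lvl_mono hf) A CE hCE1
  have hsum0 : 0 ≤ ∑ i ∈ range (n + 1), Cf (Lvl hf i) :=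
    Finset.sum_nonneg fun i _ => by linarith [hCf1 (Lvl hf i)]
  refine ⟨∑ i ∈ range (n + 1), Cf (Lvl hf i) + CQ + CE, by linarith, X₀, by omega,
    fun X hX S hS => ?_⟩
  have hX2 : 2 ≤ X := hX₀2.trans hX
  have hX1 : 1 ≤ X := by omega
  have hXr : (0 : ℝ) < X := by
    have : 0 < X := by omega
    exact_mod_cast this
  obtain ⟨Y, hY⟩ : ∃ Y : ℝ, Y = (X : ℝ) ^ θ' := ⟨_, rfl⟩
  have hY0 : 0 ≤ Y := by rw [hY]; positivity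
  have hXY : (X : ℝ) ^ (θ - θ') * Y = (X : ℝ) ^ θ := by
    rw [hY, ← Real.rpow_add hXr]
    congr 1
    ring
  -- the families
  obtain ⟨SG, hSG⟩ : ∃ SG : ℕ → Finset (Fin n → ℤ), SG = fun i => S.filter fun x =>
      ∃ a b : Fin n, a ≠ b ∧ Cc X (kap J (Lvl hf i)) (A * J) J (x a).natAbs ∧
      Cc X (kap J (Lvl hf i)) (A * J) J (x b).natAbs ∧ X ^ Lvl hf (i + 1) ≤ (x a).natAbs ∧
      costP x a b ≤ (X : ℝ) ^ θ' := ⟨_, rfl⟩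
  obtain ⟨SQ, hSQ⟩ : ∃ SQ : Finset (Fin n → ℤ), SQ = S.filter fun x =>
      ∃ j k : Fin n, j ≠ k ∧ ∃ q : ℕ, 1 ≤ q ∧ q ∣ (x j).natAbs ∧ 2 * (x k).natAbs < q ∧
      (rd q : ℝ) * costP x j k ≤ (X : ℝ) ^ θ' := ⟨_, rfl⟩
  obtain ⟨SE, hSE⟩ : ∃ SE : Finset (Fin n → ℤ), SE = S.filter fun x =>
      ∃ j a b : Fin n, j ≠ a ∧ j ≠ b ∧ a ≠ b ∧ ∃ q : ℕ, 1 ≤ q ∧ q ∣ (x j).natAbs ∧
      CE * (X : ℝ) ^ 2 ≤ q ∧ (rd q : ℝ) * costE x j a b ≤ (X : ℝ) ^ θ' := ⟨_, rfl⟩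
  have cG : ∀ i, ((SG i).card : ℝ) ≤ Cf (Lvl hf i) * (X : ℝ) ^ θ := by
    intro i
    have h := hCf (Lvl hf i) X Y hX1 hY0 (SG i) (fun x hx => by
      rw [hSG] at hx
      obtain ⟨hx1, a, b, hab, h1, h2, h3, h4⟩ := mem_filter.1 hx
      refine ⟨(hS x hx1).1, a, b, hab, h1, h2, Or.inl ?_, ?_⟩
      · have h5 : Lvl hf (i + 1) = Lvl hf i + hf (Lvl hf i) + 2 := rfl
        calc 2 * X ^ hf (Lvl hf i) ≤ X * X ^ hf (Lvl hf i) := Nat.mul_le_mul_right _ hX2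
          _ = X ^ (hf (Lvl hf i) + 1) := by ring
          _ < X ^ (hf (Lvl hf i) + 2) := Nat.pow_lt_pow_right (by omega) (by omega)
          _ ≤ X ^ Lvl hf (i + 1) := Nat.pow_le_pow_right hX1 (by omega)
          _ ≤ (x a).natAbs := h3
      · rw [hY]
        exact h4)
    rwa [mul_assoc, hXY] at h
  have cQ : (SQ.card : ℝ) ≤ CQ * (X : ℝ) ^ θ := by
    have h := hCQ X Y hX1 hY0 SQ (fun x hx => by
      rw [hSQ] at hx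
      obtain ⟨hx1, j, k, hjk, q, h1, h2, h3, h4⟩ := mem_filter.1 hx
      exact ⟨(hS x hx1).1, j, k, hjk, q, h1, h2, h3, by rw [hY]; exact h4⟩)
    rwa [mul_assoc, hXY] at h
  have cE : (SE.card : ℝ) ≤ CE * (X : ℝ) ^ θ := by
    have h := hCE X Y hX1 hY0 SE (fun x hx => by
      rw [hSE] at hx
      obtain ⟨hx1, j, a, b, h1, h2, h3, q, h4, h5, h6, h7⟩ := mem_filter.1 hx
      have hT := (hS x hx1).1
      have hle : ∀ i, CE * (rd (x i).natAbs : ℝ) ^ 2 ≤ q := by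
        intro i
        refine le_trans ?_ h6
        have h8 : (rd (x i).natAbs : ℝ) ≤ X := by exact_mod_cast Count_rd_le x hT.rad i
        have h9 : (0 : ℝ) ≤ rd (x i).natAbs := Nat.cast_nonneg _
        have h10 : (rd (x i).natAbs : ℝ) ^ 2 ≤ (X : ℝ) ^ 2 := pow_le_pow_left₀ h9 h8 2
        nlinarith
      exact ⟨hT, j, a, b, h1, h2, h3, q, h4, h5, hle a, hle b, by rw [hY]; exact h7⟩)
    rwa [mul_assoc, hXY] at h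
  have hsub : S ⊆ ((range (n + 1)).biUnion SG) ∪ (SQ ∪ SE) := by
    intro x hx
    obtain ⟨hT, hbig⟩ := hS x hx
    rw [mem_union, mem_union, mem_biUnion]
    rcases hX₀ X hX x hT hbig with ⟨i, hi, h1⟩ | h1 | h1
    · refine Or.inl ⟨i, mem_range.2 (by omega), ?_⟩
      rw [hSG]
      exact mem_filter.2 ⟨hx, h1⟩
    · refine Or.inr (Or.inl ?_)
      rw [hSQ]
      exact mem_filter.2 ⟨hx, h1⟩
    · refine Or.inr (Or.inr ?_)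
      rw [hSE]
      exact mem_filter.2 ⟨hx, h1⟩
  have hc : (S.card : ℝ) ≤ ∑ i ∈ range (n + 1), ((SG i).card : ℝ) + ((SQ.card : ℝ) + SE.card) := by
    have h1 : S.card ≤ ∑ i ∈ range (n + 1), (SG i).card + (SQ.card + SE.card) :=
      (card_le_card hsub).trans ((card_union_le _ _).trans
        (Nat.add_le_add card_biUnion_le (card_union_le _ _)))
    exact_mod_cast h1
  have hG : ∑ i ∈ range (n + 1), ((SG i).card : ℝ) ≤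
      (∑ i ∈ range (n + 1), Cf (Lvl hf i)) * (X : ℝ) ^ θ := by
    rw [Finset.sum_mul]
    exact Finset.sum_le_sum fun i _ => cG i
  linarith

end Pool.MP_a95293_nt.NN
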