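import Pool.Agent.Lib_MP_a95293_hn.Defs

/-!
# MP_a95293_nt, THEOREM N: definitions

Pairwise coprime `n`-tuples with sum `0`, no general position. `Tq` is `Tp` (`Lib_MP_a95293_hn/Defs.lean`) without the general position hypothesis, but no two entries have sum `0`.
`costP x a b` is the cost of fixing all entries except `a` and `b`.
-/

set_option autoImplicit false

namespace Pool.MP_a95293_nt.NN

open Finset
open Pool.MP_a95293_nt.RC (rd)

/-- pairwise coprime nonzero integers with sum `0`, entries at most `X ^ A`, product of the radicals at most `X`, no two entries with sum `0` -/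
structure Tq {n : ℕ} (X A : ℕ) (x : Fin n → ℤ) : Prop where
  ne : ∀ i, x i ≠ 0
  sum : ∑ i, x i = 0
  cop : ∀ i j, i ≠ j → IsCoprime (x i) (x j)
  le : ∀ i, (x i).natAbs ≤ X ^ A
  rad : ∏ i, rd (x i).natAbs ≤ X
  two : ∀ i j, i ≠ j → x i + x j ≠ 0

/-- the cost of fixing all entries except `a` and `b` -/
noncomputable def costP {n : ℕ} (x : Fin n → ℤ) (a b : Fin n) : ℝ :=
  ∏ i ∈ univ \ {a, b}, (rd (x i).natAbs : ℝ)

end Pool.MP_a95293_nt.NN
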