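import Pool.Agent.Lib_MP_a95293_nn.Defs
import Pool.Agent.Lib_MP_a95293_hn.Gcn
import Pool.Agent.Lib_MP_a95293_hn.EnP

/-!
# THEOREM N: the energy move, and the trivial move (copy of `Lib_MP_a95293_hn/FamE.lean`, without general position)

`famE`. Constants: `enP A (ε / 2)` gives `Ce`, `gcpN n A (ε / 2)` gives `Cg`; `C = n ^ 3 * 2 ^ n * 8 * Ce * Cg` (at least `4 * Ce`; `n ≥ 1` as there is an index `j`, otherwise `S` is empty).
Proof. Split `S` by the chosen `(j, a, b)` and by the vector of the signs of `x`, at most `n ^ 3 * 2 ^ n` parts `S'` (`Fintype` data, card of the image; or `Finset.card_le_mul_card_image`). `q x` is the chosen `q`. `gcpN` for `S'` with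
`f x i = q x` if `i = j`, `2 ^ Nat.log 2 (rd (x i).natAbs)` if `i = a` or `i = b`, `(x i).natAbs` otherwise; all are between `1` and `X ^ A` (`q ∣ (x j).natAbs`, `Tq.le`; `rd k ≤ k`). Weight `w x = 2 * Ce * X ^ (ε / 2) * sqrt (rd (x a).natAbs * rd (x b).natAbs)`.
Fibre of `x` (`q = q x`, `i0 = Nat.log 2 (rd (x a).natAbs)`, `j0 = Nat.log 2 (rd (x b).natAbs)`): for `t` in the fibre `z = ((t a).natAbs, (t b).natAbs)`; `t` is determined by `z` (signs and the other entries `i ≠ j` are known, `t j = - ∑_(i ≠ j) t i`). `z.1 ∈ SS q (2 ^ (i0 + 1)) (X ^ A)`, `z.2 ∈ SS q (2 ^ (j0 + 1)) (X ^ A)`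
(coprime to `q`: `q ∣ (t j).natAbs`, `Tq.cop`). Modulo `q`: `ε_a z.1 + ε_b z.2 + N = 0` in `ZMod q`, `ε_a, ε_b` the signs, `N = ∑_(i ∉ {j, a, b}) x i`; so `z.1 = σ z.2` with `σ k = - (ε_a * ε_b) * k - ε_a * N` in `ZMod q`, and `σ k = σ k'` iff `k ≡ k' [MOD q]`. `enP` (`2 ^ (i0 + 1) ≤ 2 * rd`, `Ce * (2 rd) ^ 2 ≤ C * rd ^ 2 ≤ q`): at most
`Ce X ^ (ε / 2) sqrt (2 ^ (i0 + 1) * 2 ^ (j0 + 1)) ≤ w x` elements. `∏ rd (f x i) ≤ rd q * 2 * 2 * ∏_(i ∉ {j, a, b}) rd (x i).natAbs` (`rd (2 ^ k) ≤ 2`), so `∏ * w ≤ 8 * Ce * X ^ (ε / 2) * Y`.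
(Compare the proof of `Fam1_aux` in `Lib_MP_a95293_ps/Fam1.lean`.)

`famT`: `gcpN n A ε` with `f x i = (x i).natAbs`, `w = fun _ => 2 ^ n` (the fibre: the tuples with the same absolute values, at most `2 ^ n`).
-/

set_option autoImplicit false

namespace Pool.MP_a95293_nt.NN

open Finset
open Pool.MP_a95293_nt.RC (rd)
open Pool.MP_a95293_nt.HN (gcpN enP costE)

private theorem FamE_two (i : ℕ) : rd (2 ^ i) ≤ 2 := by
  unfold Pool.MP_a95293_nt.RC.rd
  rcases Nat.eq_zero_or_pos i with h | h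
  · rw [h]
    simp
  · rw [Nat.primeFactors_prime_pow (by omega) Nat.prime_two, prod_singleton]

/-- the sign -/
private def FamE_e (s : Bool) : ℤ := if s then 1 else -1

private theorem FamE_e_sq (s : Bool) : FamE_e s * FamE_e s = 1 := by
  cases s <;> rfl

private theorem FamE_e_mul (x : ℤ) (_hx : x ≠ 0) (s : Bool) (h : decide (0 < x) = s) :
    x = FamE_e s * (x.natAbs : ℤ) := by
  subst h
  unfold FamE_e
  by_cases h0 : 0 < x
  · simp only [h0, decide_true, if_true, one_mul]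
    omega
  · simp only [h0, decide_false]
    simp only [Bool.false_eq_true, if_false]
    omega

private theorem FamE_eq (x y : ℤ) (hx : x ≠ 0) (hy : y ≠ 0) (h : decide (0 < x) = decide (0 < y))
    (h2 : x.natAbs = y.natAbs) : x = y := by
  rw [FamE_e_mul x hx _ rfl, FamE_e_mul y hy _ rfl, h, h2]

private theorem FamE_sqrt (u v : ℝ) : 2 * Real.sqrt (u * v) = Real.sqrt ((2 * u) * (2 * v)) := by
  have h : (2 * u) * (2 * v) = 2 ^ 2 * (u * v) := by ring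
  rw [h, Real.sqrt_mul (show (0 : ℝ) ≤ 2 ^ 2 by norm_num) (u * v), Real.sqrt_sq (by norm_num)]

private theorem FamE_core (n A : ℕ) (ε : ℝ) (Ce Cg : ℝ) (hCe : 1 ≤ Ce) (_hCg : 1 ≤ Cg)
    (he : ∀ X q R R' : ℕ, 1 ≤ X → 1 ≤ q →
      q ≤ X ^ A → 1 ≤ R → 1 ≤ R' → Ce * (R : ℝ) ^ 2 ≤ q → Ce * (R' : ℝ) ^ 2 ≤ q →
      ∀ σ : ℕ → ZMod q, (∀ x y, σ x = σ y ↔ x ≡ y [MOD q]) →
      ∀ P : Finset (ℕ × ℕ), (∀ z ∈ P, z.1 ∈ PS.SS q R (X ^ A) ∧ z.2 ∈ PS.SS q R' (X ^ A) ∧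
        ((z.1 : ℕ) : ZMod q) = σ z.2) →
      (P.card : ℝ) ≤ Ce * (X : ℝ) ^ ε * Real.sqrt ((R : ℝ) * R'))
    (hg : ∀ (X : ℕ) (Y : ℝ), 1 ≤ X → 0 ≤ Y →
      ∀ {ι : Type} (S : Finset ι) (f : ι → Fin n → ℕ) (w : ι → ℝ),
      (∀ s ∈ S, ∀ i, 1 ≤ f s i ∧ f s i ≤ X ^ A) →
      (∀ s ∈ S, ∃ s' ∈ S, f s' = f s ∧ ((S.filter fun t => f t = f s).card : ℝ) ≤ w s') →
      (∀ s ∈ S, (∏ i, (rd (f s i) : ℝ)) * w s ≤ Y) →
      (S.card : ℝ) ≤ Cg * (X : ℝ) ^ ε * Y)
    (X : ℕ) (Y : ℝ) (hX : 1 ≤ X) (hY : 0 ≤ Y) (S : Finset (Fin n → ℤ)) (j a b : Fin n)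
    (hja : j ≠ a) (hjb : j ≠ b) (hab : a ≠ b) (sg : Fin n → Bool) (q : (Fin n → ℤ) → ℕ)
    (hS : ∀ x ∈ S, Tq X A x ∧ (∀ i, decide (0 < x i) = sg i) ∧ 1 ≤ q x ∧ q x ∣ (x j).natAbs ∧
      4 * Ce * (rd (x a).natAbs : ℝ) ^ 2 ≤ q x ∧ 4 * Ce * (rd (x b).natAbs : ℝ) ^ 2 ≤ q x ∧
      (rd (q x) : ℝ) * costE x j a b ≤ Y) :
    (S.card : ℝ) ≤ Cg * (X : ℝ) ^ ε * (8 * Ce * (X : ℝ) ^ ε * Y) := by
  classical
  have hX1 : (1 : ℝ) ≤ X := by exact_mod_cast hX
  have hX0 : (0 : ℝ) < X := by linarith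
  have hXe : (0 : ℝ) < (X : ℝ) ^ ε := Real.rpow_pos_of_pos hX0 _
  have hlog : ∀ m : ℕ, 2 ^ Nat.log 2 (rd m) ≤ rd m := fun m =>
    Nat.pow_log_le_self 2 (Pool.MP_a95293_nt.RC.rd_pos m).ne'
  have hlog' : ∀ m : ℕ, rd m ≤ 2 ^ (Nat.log 2 (rd m) + 1) := fun m =>
    (Nat.lt_pow_succ_log_self (by norm_num) _).le
  have hrdle : ∀ m : ℕ, 1 ≤ m → rd m ≤ m := fun m hm =>
    Nat.le_of_dvd hm (Pool.MP_a95293_nt.RC.rd_dvd m)
  set f : (Fin n → ℤ) → Fin n → ℕ := fun x i =>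
    if i = j then q x else if i = a ∨ i = b then 2 ^ Nat.log 2 (rd (x i).natAbs) else (x i).natAbs with hf
  have fj : ∀ x, f x j = q x := fun x => by simp [hf]
  have fa : ∀ x, f x a = 2 ^ Nat.log 2 (rd (x a).natAbs) := fun x => by
    simp [hf, hja.symm]
  have fb : ∀ x, f x b = 2 ^ Nat.log 2 (rd (x b).natAbs) := fun x => by
    simp [hf, hjb.symm]
  have fo : ∀ x i, i ≠ j → i ≠ a → i ≠ b → f x i = (x i).natAbs := fun x i h1 h2 h3 => by
    simp [hf, h1, h2, h3]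
  set w : (Fin n → ℤ) → ℝ := fun x =>
    2 * Ce * (X : ℝ) ^ ε * Real.sqrt ((rd (x a).natAbs : ℝ) * (rd (x b).natAbs : ℝ)) with hw
  have hpos : ∀ x ∈ S, ∀ i, 1 ≤ (x i).natAbs := fun x hx i =>
    Int.natAbs_pos.2 ((hS x hx).1.ne i)
  refine hg X (8 * Ce * (X : ℝ) ^ ε * Y) hX (by positivity) S f w ?_ ?_ ?_
  · intro x hx i
    obtain ⟨h1, h2, h3, h4, h5, h6, h7⟩ := hS x hx
    by_cases hij : i = j
    · subst hij
      rw [fj]
      exact ⟨h3, (Nat.le_of_dvd (hpos x hx i) h4).trans (h1.le i)⟩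
    · by_cases hia : i = a
      · subst hia
        rw [fa]
        exact ⟨Nat.one_le_two_pow, ((hlog _).trans (hrdle _ (hpos x hx i))).trans (h1.le i)⟩
      · by_cases hib : i = b
        · subst hib
          rw [fb]
          exact ⟨Nat.one_le_two_pow, ((hlog _).trans (hrdle _ (hpos x hx i))).trans (h1.le i)⟩
        · rw [fo x i hij hia hib]
          exact ⟨hpos x hx i, h1.le i⟩
  · intro x hx
    refine ⟨x, hx, rfl, ?_⟩
    obtain ⟨h1, h2, h3, h4, h5, h6, h7⟩ := hS x hx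
    set F := S.filter fun t => f t = f x with hF
    have hFt : ∀ t ∈ F, t ∈ S ∧ q t = q x ∧ Nat.log 2 (rd (t a).natAbs) = Nat.log 2 (rd (x a).natAbs) ∧
        Nat.log 2 (rd (t b).natAbs) = Nat.log 2 (rd (x b).natAbs) ∧
        ∀ i, i ≠ j → i ≠ a → i ≠ b → t i = x i := by
      intro t ht
      rw [hF, mem_filter] at ht
      obtain ⟨htS, hft⟩ := ht
      refine ⟨htS, ?_, ?_, ?_, ?_⟩
      · have := congrFun hft j
        rwa [fj, fj] at this
      · have := congrFun hft a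
        rw [fa, fa] at this
        exact Nat.pow_right_injective (le_refl 2) this
      · have := congrFun hft b
        rw [fb, fb] at this
        exact Nat.pow_right_injective (le_refl 2) this
      · intro i g1 g2 g3
        have := congrFun hft i
        rw [fo t i g1 g2 g3, fo x i g1 g2 g3] at this
        apply FamE_eq _ _ ((hS t htS).1.ne i) (h1.ne i) _ this
        rw [(hS t htS).2.1 i, h2 i]
    set g : (Fin n → ℤ) → ℕ × ℕ := fun t => ((t a).natAbs, (t b).natAbs) with hgdef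
    have hinj : Set.InjOn g (F : Set (Fin n → ℤ)) := by
      intro t ht t' ht' htt
      rw [mem_coe] at ht ht'
      obtain ⟨b1, _, _, _, b5⟩ := hFt t ht
      obtain ⟨c1, _, _, _, c5⟩ := hFt t' ht'
      simp only [hgdef, Prod.mk.injEq] at htt
      have ea : t a = t' a := FamE_eq _ _ ((hS t b1).1.ne a) ((hS t' c1).1.ne a)
        (by rw [(hS t b1).2.1 a, (hS t' c1).2.1 a]) htt.1
      have eb : t b = t' b := FamE_eq _ _ ((hS t b1).1.ne b) ((hS t' c1).1.ne b)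
        (by rw [(hS t b1).2.1 b, (hS t' c1).2.1 b]) htt.2
      have eo : ∀ i, i ≠ j → t i = t' i := by
        intro i hij
        by_cases hia : i = a
        · rw [hia]; exact ea
        · by_cases hib : i = b
          · rw [hib]; exact eb
          · rw [b5 i hij hia hib, c5 i hij hia hib]
      funext i
      by_cases hij : i = j
      · subst hij
        have s1 := (hS t b1).1.sum
        have s2 := (hS t' c1).1.sum
        rw [← Finset.add_sum_erase univ _ (mem_univ i)] at s1 s2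
        have s3 : ∑ k ∈ univ.erase i, t k = ∑ k ∈ univ.erase i, t' k := by
          apply Finset.sum_congr rfl
          intro k hk
          exact eo k (Finset.ne_of_mem_erase hk)
        rw [s3] at s1
        linarith
      · exact eo i hij
    have hcard : F.card = (F.image g).card := (Finset.card_image_of_injOn hinj).symm
    -- the congruence
    set ea : ℤ := FamE_e (sg a) with hea
    set eb : ℤ := FamE_e (sg b) with heb
    have ea2 : ((ea : ℤ) : ZMod (q x)) * ((ea : ℤ) : ZMod (q x)) = 1 := by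
      rw [← Int.cast_mul, hea, FamE_e_sq, Int.cast_one]
    have eb2 : ((eb : ℤ) : ZMod (q x)) * ((eb : ℤ) : ZMod (q x)) = 1 := by
      rw [← Int.cast_mul, heb, FamE_e_sq, Int.cast_one]
    set N : ℤ := ∑ i ∈ univ \ {j, a, b}, x i with hN
    have hmem : ∀ i ∈ (univ \ {j, a, b} : Finset (Fin n)), i ≠ j ∧ i ≠ a ∧ i ≠ b := by
      intro i hi
      simp only [mem_sdiff, mem_univ, true_and, mem_insert, mem_singleton, not_or] at hi
      exact hi
    have hP := he X (q x) (2 ^ (Nat.log 2 (rd (x a).natAbs) + 1)) (2 ^ (Nat.log 2 (rd (x b).natAbs) + 1)) hX h3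
      ((Nat.le_of_dvd (hpos x hx j) h4).trans (h1.le j)) Nat.one_le_two_pow Nat.one_le_two_pow ?_ ?_
      (fun k => - (((ea : ℤ) : ZMod (q x)) * ((eb : ℤ) : ZMod (q x))) * (k : ZMod (q x)) -
        ((ea : ℤ) : ZMod (q x)) * ((N : ℤ) : ZMod (q x))) ?_ (F.image g) ?_
    · rw [hcard]
      refine hP.trans ?_
      rw [hw]
      have r1 : ((2 ^ (Nat.log 2 (rd (x a).natAbs) + 1) : ℕ) : ℝ) ≤ 2 * (rd (x a).natAbs : ℝ) := by
        have := hlog (x a).natAbs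
        have h : 2 ^ (Nat.log 2 (rd (x a).natAbs) + 1) ≤ 2 * rd (x a).natAbs := by
          rw [pow_succ]
          omega
        exact_mod_cast h
      have r2 : ((2 ^ (Nat.log 2 (rd (x b).natAbs) + 1) : ℕ) : ℝ) ≤ 2 * (rd (x b).natAbs : ℝ) := by
        have := hlog (x b).natAbs
        have h : 2 ^ (Nat.log 2 (rd (x b).natAbs) + 1) ≤ 2 * rd (x b).natAbs := by
          rw [pow_succ]
          omega
        exact_mod_cast h
      have r3 : Real.sqrt (((2 ^ (Nat.log 2 (rd (x a).natAbs) + 1) : ℕ) : ℝ) *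
          ((2 ^ (Nat.log 2 (rd (x b).natAbs) + 1) : ℕ) : ℝ)) ≤
          2 * Real.sqrt ((rd (x a).natAbs : ℝ) * (rd (x b).natAbs : ℝ)) := by
        rw [FamE_sqrt]
        apply Real.sqrt_le_sqrt
        exact mul_le_mul r1 r2 (Nat.cast_nonneg _) (by positivity)
      calc Ce * (X : ℝ) ^ ε * Real.sqrt (((2 ^ (Nat.log 2 (rd (x a).natAbs) + 1) : ℕ) : ℝ) *
          ((2 ^ (Nat.log 2 (rd (x b).natAbs) + 1) : ℕ) : ℝ))
          ≤ Ce * (X : ℝ) ^ ε * (2 * Real.sqrt ((rd (x a).natAbs : ℝ) * (rd (x b).natAbs : ℝ))) :=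
            mul_le_mul_of_nonneg_left r3 (by positivity)
        _ = 2 * Ce * (X : ℝ) ^ ε * Real.sqrt ((rd (x a).natAbs : ℝ) * (rd (x b).natAbs : ℝ)) := by ring
    · have h : 2 ^ (Nat.log 2 (rd (x a).natAbs) + 1) ≤ 2 * rd (x a).natAbs := by
        have := hlog (x a).natAbs
        rw [pow_succ]
        omega
      have h' : ((2 ^ (Nat.log 2 (rd (x a).natAbs) + 1) : ℕ) : ℝ) ≤ 2 * (rd (x a).natAbs : ℝ) := by
        exact_mod_cast h
      have h'' := pow_le_pow_left₀ (Nat.cast_nonneg (2 ^ (Nat.log 2 (rd (x a).natAbs) + 1))) h' 2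
      refine le_trans ?_ h5
      calc Ce * ((2 ^ (Nat.log 2 (rd (x a).natAbs) + 1) : ℕ) : ℝ) ^ 2 ≤ Ce * (2 * (rd (x a).natAbs : ℝ)) ^ 2 :=
            mul_le_mul_of_nonneg_left h'' (by linarith)
        _ = 4 * Ce * (rd (x a).natAbs : ℝ) ^ 2 := by ring
    · have h : 2 ^ (Nat.log 2 (rd (x b).natAbs) + 1) ≤ 2 * rd (x b).natAbs := by
        have := hlog (x b).natAbs
        rw [pow_succ]
        omega
      have h' : ((2 ^ (Nat.log 2 (rd (x b).natAbs) + 1) : ℕ) : ℝ) ≤ 2 * (rd (x b).natAbs : ℝ) := by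
        exact_mod_cast h
      have h'' := pow_le_pow_left₀ (Nat.cast_nonneg (2 ^ (Nat.log 2 (rd (x b).natAbs) + 1))) h' 2
      refine le_trans ?_ h6
      calc Ce * ((2 ^ (Nat.log 2 (rd (x b).natAbs) + 1) : ℕ) : ℝ) ^ 2 ≤ Ce * (2 * (rd (x b).natAbs : ℝ)) ^ 2 :=
            mul_le_mul_of_nonneg_left h'' (by linarith)
        _ = 4 * Ce * (rd (x b).natAbs : ℝ) ^ 2 := by ring
    · intro k k'
      constructor
      · intro hk
        have e1 : (k : ZMod (q x)) = (k' : ZMod (q x)) := by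
          have e2 : ((ea : ℤ) : ZMod (q x)) * ((eb : ℤ) : ZMod (q x)) * (k : ZMod (q x)) =
              ((ea : ℤ) : ZMod (q x)) * ((eb : ℤ) : ZMod (q x)) * (k' : ZMod (q x)) := by
            linear_combination -hk
          have e3 : ((eb : ℤ) : ZMod (q x)) * (((ea : ℤ) : ZMod (q x)) *
              (((ea : ℤ) : ZMod (q x)) * ((eb : ℤ) : ZMod (q x)) * (k : ZMod (q x)))) =
              ((eb : ℤ) : ZMod (q x)) * (((ea : ℤ) : ZMod (q x)) *
              (((ea : ℤ) : ZMod (q x)) * ((eb : ℤ) : ZMod (q x)) * (k' : ZMod (q x)))) := by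
            rw [e2]
          linear_combination e3 + (((k' : ZMod (q x)) - k) *
            (((ea : ℤ) : ZMod (q x)) * ((ea : ℤ) : ZMod (q x)))) * eb2 + ((k' : ZMod (q x)) - k) * ea2
        exact (ZMod.natCast_eq_natCast_iff _ _ _).1 e1
      · intro hk
        have e1 : (k : ZMod (q x)) = (k' : ZMod (q x)) := (ZMod.natCast_eq_natCast_iff _ _ _).2 hk
        simp only [e1]
    · intro z hz
      obtain ⟨t, ht, rfl⟩ := Finset.mem_image.1 hz
      obtain ⟨b1, b2, b3, b4, b5⟩ := hFt t ht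
      obtain ⟨g1, g2, g3, g4, g5, g6, g7⟩ := hS t b1
      rw [b2] at g3 g4
      have hcop : ∀ i, i ≠ j → ((t i).natAbs).Coprime (q x) := by
        intro i hij
        have := g1.cop i j hij
        rw [Int.isCoprime_iff_gcd_eq_one] at this
        exact Nat.Coprime.coprime_dvd_right g4 this
      refine ⟨?_, ?_, ?_⟩
      · rw [PS.mem_SS]
        refine ⟨⟨hpos t b1 a, g1.le a⟩, hcop a hja.symm, ?_⟩
        rw [← b3]
        exact hlog' _
      · rw [PS.mem_SS]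
        refine ⟨⟨hpos t b1 b, g1.le b⟩, hcop b hjb.symm, ?_⟩
        rw [← b4]
        exact hlog' _
      · have hsum : (t j : ℤ) + t a + t b + N = 0 := by
          have s1 := g1.sum
          rw [← Finset.sum_sdiff (Finset.subset_univ ({j, a, b} : Finset (Fin n)))] at s1
          have s2 : ∑ i ∈ univ \ {j, a, b}, t i = N := by
            rw [hN]
            apply Finset.sum_congr rfl
            intro i hi
            obtain ⟨i1, i2, i3⟩ := hmem i hi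
            exact b5 i i1 i2 i3
          have s3 : ∑ i ∈ ({j, a, b} : Finset (Fin n)), t i = t j + (t a + t b) := by
            rw [Finset.sum_insert (by simp [hja, hjb]), Finset.sum_insert (by simp [hab]), Finset.sum_singleton]
          rw [s2, s3] at s1
          linarith
        have hj0 : ((t j : ℤ) : ZMod (q x)) = 0 := by
          rw [ZMod.intCast_zmod_eq_zero_iff_dvd]
          exact Int.natCast_dvd.2 g4
        have hta := FamE_e_mul (t a) (g1.ne a) (sg a) (g2 a)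
        have htb := FamE_e_mul (t b) (g1.ne b) (sg b) (g2 b)
        have hc := congrArg (fun y : ℤ => (y : ZMod (q x))) hsum
        simp only [Int.cast_add, Int.cast_zero, hj0, zero_add] at hc
        rw [hta, htb] at hc
        simp only [Int.cast_mul, Int.cast_natCast] at hc
        rw [← hea, ← heb] at hc
        show (((t a).natAbs : ℕ) : ZMod (q x)) = - (((ea : ℤ) : ZMod (q x)) * ((eb : ℤ) : ZMod (q x))) *
          (((t b).natAbs : ℕ) : ZMod (q x)) - ((ea : ℤ) : ZMod (q x)) * ((N : ℤ) : ZMod (q x))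
        linear_combination ((ea : ℤ) : ZMod (q x)) * hc - (((t a).natAbs : ℕ) : ZMod (q x)) * ea2
  · intro x hx
    obtain ⟨h1, h2, h3, h4, h5, h6, h7⟩ := hS x hx
    have hsplit : ∏ i, (rd (f x i) : ℝ) = (∏ i ∈ univ \ {j, a, b}, (rd (x i).natAbs : ℝ)) *
        ((rd (q x) : ℝ) * ((rd (2 ^ Nat.log 2 (rd (x a).natAbs)) : ℝ) *
          (rd (2 ^ Nat.log 2 (rd (x b).natAbs)) : ℝ))) := by
      rw [← Finset.prod_sdiff (Finset.subset_univ ({j, a, b} : Finset (Fin n)))]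
      congr 1
      · apply Finset.prod_congr rfl
        intro i hi
        simp only [mem_sdiff, mem_univ, true_and, mem_insert, mem_singleton, not_or] at hi
        rw [fo x i hi.1 hi.2.1 hi.2.2]
      · rw [Finset.prod_insert (by simp [hja, hjb]), Finset.prod_insert (by simp [hab]), Finset.prod_singleton,
          fj, fa, fb]
    rw [hsplit, hw]
    unfold costE at h7
    set Q := ∏ i ∈ univ \ {j, a, b}, (rd (x i).natAbs : ℝ) with hQ
    have hQ0 : 0 ≤ Q := Finset.prod_nonneg fun i _ => Nat.cast_nonneg _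
    have r1 : (rd (2 ^ Nat.log 2 (rd (x a).natAbs)) : ℝ) ≤ 2 := by exact_mod_cast FamE_two _
    have r2 : (rd (2 ^ Nat.log 2 (rd (x b).natAbs)) : ℝ) ≤ 2 := by exact_mod_cast FamE_two _
    have r1' : (0 : ℝ) ≤ (rd (2 ^ Nat.log 2 (rd (x a).natAbs)) : ℝ) := Nat.cast_nonneg _
    have r2' : (0 : ℝ) ≤ (rd (2 ^ Nat.log 2 (rd (x b).natAbs)) : ℝ) := Nat.cast_nonneg _
    have r12 : (rd (2 ^ Nat.log 2 (rd (x a).natAbs)) : ℝ) * (rd (2 ^ Nat.log 2 (rd (x b).natAbs)) : ℝ) ≤ 4 := by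
      nlinarith
    show Q * ((rd (q x) : ℝ) * ((rd (2 ^ Nat.log 2 (rd (x a).natAbs)) : ℝ) *
        (rd (2 ^ Nat.log 2 (rd (x b).natAbs)) : ℝ))) *
        (2 * Ce * (X : ℝ) ^ ε * Real.sqrt ((rd (x a).natAbs : ℝ) * (rd (x b).natAbs : ℝ))) ≤ _
    calc Q * ((rd (q x) : ℝ) * ((rd (2 ^ Nat.log 2 (rd (x a).natAbs)) : ℝ) *
        (rd (2 ^ Nat.log 2 (rd (x b).natAbs)) : ℝ))) *
        (2 * Ce * (X : ℝ) ^ ε * Real.sqrt ((rd (x a).natAbs : ℝ) * (rd (x b).natAbs : ℝ)))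
        = ((rd (2 ^ Nat.log 2 (rd (x a).natAbs)) : ℝ) * (rd (2 ^ Nat.log 2 (rd (x b).natAbs)) : ℝ)) *
          (2 * Ce * (X : ℝ) ^ ε) *
          ((rd (q x) : ℝ) * (Q * Real.sqrt ((rd (x a).natAbs : ℝ) * (rd (x b).natAbs : ℝ)))) := by ring
      _ ≤ 4 * (2 * Ce * (X : ℝ) ^ ε) * Y := by
          apply mul_le_mul _ h7 (by positivity) (by positivity)
          exact mul_le_mul_of_nonneg_right r12 (by positivity)
      _ = 8 * Ce * (X : ℝ) ^ ε * Y := by ring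

theorem famE (n A : ℕ) (ε : ℝ) (hε : 0 < ε) : ∃ C : ℝ, 1 ≤ C ∧ ∀ (X : ℕ) (Y : ℝ), 1 ≤ X → 0 ≤ Y →
    ∀ S : Finset (Fin n → ℤ), (∀ x ∈ S, Tq X A x ∧ ∃ j a b : Fin n, j ≠ a ∧ j ≠ b ∧ a ≠ b ∧
      ∃ q : ℕ, 1 ≤ q ∧ q ∣ (x j).natAbs ∧ C * (rd (x a).natAbs : ℝ) ^ 2 ≤ q ∧
        C * (rd (x b).natAbs : ℝ) ^ 2 ≤ q ∧ (rd q : ℝ) * costE x j a b ≤ Y) →
    (S.card : ℝ) ≤ C * (X : ℝ) ^ ε * Y := by
  classical
  obtain ⟨Cg, hCg, hg⟩ := gcpN n A (ε / 2) (by positivity)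
  obtain ⟨Ce, hCe, he⟩ := enP A (ε / 2) (by positivity)
  have hCC : 1 ≤ Ce * Cg := one_le_mul_of_one_le_of_one_le hCe hCg
  set κ : ℝ := (Fintype.card ((Fin n × Fin n × Fin n) × (Fin n → Bool)) : ℝ) with hκ
  have hκ0 : 0 ≤ κ := Nat.cast_nonneg _
  have hC1 : 1 ≤ (κ + 1) * (8 * (Ce * Cg)) := by nlinarith
  have hC4 : 4 * Ce ≤ (κ + 1) * (8 * (Ce * Cg)) := by
    have h1 : 4 * Ce ≤ 8 * (Ce * Cg) := by nlinarith
    have h2 : 8 * (Ce * Cg) ≤ (κ + 1) * (8 * (Ce * Cg)) := by nlinarith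
    linarith
  refine ⟨(κ + 1) * (8 * (Ce * Cg)), hC1, ?_⟩
  intro X Y hX hY S hS
  have hX1 : (1 : ℝ) ≤ X := by exact_mod_cast hX
  have hX0 : (0 : ℝ) < X := by linarith
  have hXe2 : (X : ℝ) ^ (ε / 2) * (X : ℝ) ^ (ε / 2) = (X : ℝ) ^ ε := by
    rw [← Real.rpow_add hX0]
    congr 1
    ring
  rcases S.eq_empty_or_nonempty with hemp | ⟨x₀, hx₀⟩
  · rw [hemp, card_empty]
    have : (0 : ℝ) ≤ (X : ℝ) ^ ε := by positivity
    push_cast
    positivity
  obtain ⟨j₀, _⟩ := (hS x₀ hx₀).2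
  have hne : Nonempty (Fin n) := ⟨j₀⟩
  have hS' := fun x (hx : x ∈ S) => (hS x hx).2
  choose! j a b hja hjb hab q hq using hS'
  set key : (Fin n → ℤ) → (Fin n × Fin n × Fin n) × (Fin n → Bool) :=
    fun x => ((j x, a x, b x), fun i => decide (0 < x i)) with hkey
  have hsum : S.card = ∑ k : (Fin n × Fin n × Fin n) × (Fin n → Bool), (S.filter fun x => key x = k).card :=
    card_eq_sum_card_fiberwise fun x _ => mem_coe.2 (mem_univ _)
  have hpart : ∀ k : (Fin n × Fin n × Fin n) × (Fin n → Bool),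
      ((S.filter fun x => key x = k).card : ℝ) ≤ Cg * (X : ℝ) ^ (ε / 2) * (8 * Ce * (X : ℝ) ^ (ε / 2) * Y) := by
    intro k
    rcases (S.filter fun x => key x = k).eq_empty_or_nonempty with hemp | ⟨y, hy⟩
    · rw [hemp, card_empty]
      push_cast
      have : (0 : ℝ) ≤ (X : ℝ) ^ (ε / 2) := by positivity
      positivity
    · obtain ⟨⟨j', a', b'⟩, sg⟩ := k
      rw [mem_filter] at hy
      obtain ⟨hyS, hyk⟩ := hy
      simp only [hkey, Prod.mk.injEq] at hyk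
      obtain ⟨⟨k1, k2, k3⟩, _⟩ := hyk
      refine FamE_core n A (ε / 2) Ce Cg hCe hCg he hg X Y hX hY _ j' a' b' ?_ ?_ ?_ sg q ?_
      · rw [← k1, ← k2]; exact hja y hyS
      · rw [← k1, ← k3]; exact hjb y hyS
      · rw [← k2, ← k3]; exact hab y hyS
      · intro x hx
        rw [mem_filter] at hx
        obtain ⟨hxS, hxk⟩ := hx
        simp only [hkey, Prod.mk.injEq] at hxk
        obtain ⟨⟨l1, l2, l3⟩, l4⟩ := hxk
        obtain ⟨q1, q2, q3, q4, q5⟩ := hq x hxS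
        rw [l1] at q2
        rw [l2] at q3
        rw [l3] at q4
        rw [l1, l2, l3] at q5
        refine ⟨(hS x hxS).1, fun i => congrFun l4 i, q1, q2, ?_, ?_, q5⟩
        · refine le_trans ?_ q3
          exact mul_le_mul_of_nonneg_right hC4 (by positivity)
        · refine le_trans ?_ q4
          exact mul_le_mul_of_nonneg_right hC4 (by positivity)
  have htot : (S.card : ℝ) ≤ κ * (Cg * (X : ℝ) ^ (ε / 2) * (8 * Ce * (X : ℝ) ^ (ε / 2) * Y)) := by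
    rw [hsum]
    push_cast
    calc ∑ k : (Fin n × Fin n × Fin n) × (Fin n → Bool), ((S.filter fun x => key x = k).card : ℝ)
        ≤ ∑ _k : (Fin n × Fin n × Fin n) × (Fin n → Bool),
          (Cg * (X : ℝ) ^ (ε / 2) * (8 * Ce * (X : ℝ) ^ (ε / 2) * Y)) := Finset.sum_le_sum fun k _ => hpart k
      _ = κ * (Cg * (X : ℝ) ^ (ε / 2) * (8 * Ce * (X : ℝ) ^ (ε / 2) * Y)) := by
          rw [Finset.sum_const, nsmul_eq_mul, Finset.card_univ]
  refine htot.trans ?_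
  have e1 : κ * (Cg * (X : ℝ) ^ (ε / 2) * (8 * Ce * (X : ℝ) ^ (ε / 2) * Y)) =
      κ * (8 * (Ce * Cg)) * ((X : ℝ) ^ ε * Y) := by
    rw [← hXe2]
    ring
  rw [e1]
  have hXY : 0 ≤ (X : ℝ) ^ ε * Y := by positivity
  have e2 : κ * (8 * (Ce * Cg)) ≤ (κ + 1) * (8 * (Ce * Cg)) := by nlinarith
  calc κ * (8 * (Ce * Cg)) * ((X : ℝ) ^ ε * Y) ≤ (κ + 1) * (8 * (Ce * Cg)) * ((X : ℝ) ^ ε * Y) :=
        mul_le_mul_of_nonneg_right e2 hXY
    _ = (κ + 1) * (8 * (Ce * Cg)) * (X : ℝ) ^ ε * Y := by ring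

theorem famT (n A : ℕ) (ε : ℝ) (hε : 0 < ε) : ∃ C : ℝ, 1 ≤ C ∧ ∀ (X : ℕ) (Y : ℝ), 1 ≤ X → 0 ≤ Y →
    ∀ S : Finset (Fin n → ℤ), (∀ x ∈ S, (∀ i, x i ≠ 0) ∧ (∀ i, (x i).natAbs ≤ X ^ A) ∧
      ∏ i, (rd (x i).natAbs : ℝ) ≤ Y) →
    (S.card : ℝ) ≤ C * (X : ℝ) ^ ε * Y := by
  classical
  obtain ⟨Cg, hCg, hg⟩ := gcpN n A ε hε
  have h2n : (1 : ℝ) ≤ 2 ^ n := one_le_pow₀ (by norm_num)
  refine ⟨Cg * 2 ^ n, one_le_mul_of_one_le_of_one_le hCg h2n, ?_⟩
  intro X Y hX hY S hS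
  have hX1 : (1 : ℝ) ≤ X := by exact_mod_cast hX
  have hX0 : (0 : ℝ) < X := by linarith
  have main := hg X (Y * 2 ^ n) hX (by positivity) S (fun x i => (x i).natAbs) (fun _ => 2 ^ n) ?_ ?_ ?_
  · refine main.trans (le_of_eq ?_)
    ring
  · intro x hx i
    exact ⟨Int.natAbs_pos.2 ((hS x hx).1 i), (hS x hx).2.1 i⟩
  · intro x hx
    refine ⟨x, hx, rfl, ?_⟩
    have hcard : (S.filter fun t => (fun i => (t i).natAbs) = fun i => (x i).natAbs).card ≤
        (univ : Finset (Fin n → Bool)).card := by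
      refine card_le_card_of_injOn (fun t i => decide (0 < t i)) (fun t _ => mem_coe.2 (mem_univ _)) ?_
      intro t ht t' ht' htt
      rw [mem_coe, mem_filter] at ht ht'
      funext i
      apply FamE_eq _ _ ((hS t ht.1).1 i) ((hS t' ht'.1).1 i) (congrFun htt i)
      have e1 := congrFun ht.2 i
      have e2 := congrFun ht'.2 i
      exact e1.trans e2.symm
    have h3 : (univ : Finset (Fin n → Bool)).card = 2 ^ n := by
      rw [Finset.card_univ, Fintype.card_fun, Fintype.card_bool, Fintype.card_fin]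
    rw [h3] at hcard
    exact_mod_cast hcard
  · intro x hx
    exact mul_le_mul_of_nonneg_right (hS x hx).2.2 (by positivity)

end Pool.MP_a95293_nt.NN
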