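import Pool.Agent.Lib_MP_a95293_nn.Defs
import Pool.Agent.Lib_MP_a95293_gv.Surf

/-!
# THEOREM N: two entries of bounded complexity, the other entries fixed

`FibP_g` is `fibG` (`Lib_MP_a95293_hn/FibG.lean`), same proof, for the structure `Tg` (no bound for the radical, common divisors instead of pairwise coprime).
`fibP`: `FibP_g` for the three terms `(z.1, z.2, N)`, `K = {2}`. General position is automatic: `c 0 * z.1 + c 1 * z.2 + c 2 * N = 0` and `N = - z.1 - z.2` give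
`(c 0 - c 2) * z.1 = (c 2 - c 1) * z.2`, so `z.1 ∣ c 2 - c 1` and `z.2 ∣ c 0 - c 2`; if one of these is not `0` both are not `0` and `|z.1|, |z.2| ≤ 2 X ^ h`.
-/

set_option autoImplicit false

namespace Pool.MP_a95293_nt.NN

open Finset
open Pool.MP_a95293_nt.RC (rd)
open Pool.MP_a95293_nt.CG (Cc)

/-- the hypotheses used for the fibre estimate -/
private structure Tg {r : ℕ} (X A h : ℕ) (x : Fin r → ℤ) : Prop where
  ne : ∀ i, x i ≠ 0
  sum : ∑ i, x i = 0
  prim : ∀ b : ℤ, (∀ i, b ∣ x i) → IsUnit b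
  le : ∀ i, (x i).natAbs ≤ X ^ A
  gp : ∀ c : Fin r → ℤ, (∀ s, |c s| ≤ (X : ℤ) ^ h) → ∑ s, c s * x s = 0 → ∀ s s', c s = c s'

private theorem FibP_ext {s J : ℕ} (hs : s ≤ J) (F : Fin s → ℤ) :
    ∏ t : Fin J, (if h : (t : ℕ) < s then F ⟨t, h⟩ else 1) = ∏ t : Fin s, F t := by
  have h1 : ∏ t : Fin s, F t = ∏ t : Fin s, (if h : (t : ℕ) < s then F ⟨t, h⟩ else 1) := by
    refine Finset.prod_congr rfl fun t _ => ?_
    rw [dif_pos t.2]
  rw [h1, Finset.prod_fin_eq_prod_range, Finset.prod_fin_eq_prod_range]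
  symm
  have h2 : ∀ t ∈ Finset.range s, (if h : t < s then (if h : t < s then F ⟨t, h⟩ else 1) else 1) =
      (if h : t < J then (if h : t < s then F ⟨t, h⟩ else 1) else 1) := by
    intro t ht
    rw [Finset.mem_range] at ht
    rw [dif_pos ht, dif_pos (lt_of_lt_of_le ht hs)]
  rw [Finset.prod_congr rfl h2]
  refine Finset.prod_subset (Finset.range_subset_range.2 hs) fun t ht ht' => ?_
  rw [Finset.mem_range] at ht ht'
  rw [dif_pos ht, dif_neg ht']

private theorem FibP_cc {X κ E J t : ℕ} (hX : 1 ≤ X) (h : Cc X κ E J t) :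
    ∃ (y : Fin (J + 1) → ℤ) (e : Fin (J + 1) → ℕ),
      (∀ j, 1 ≤ y j ∧ y j ≤ (X : ℤ) ^ (κ + 1)) ∧ (∀ j, e j ≤ E + 1) ∧
      (t : ℤ) = ∏ j, y j ^ e j := by
  obtain ⟨s, F, w, l, hs, ⟨hF1, hF2⟩, hw, -, rfl⟩ := h
  have hX' : (1 : ℤ) ≤ X := by exact_mod_cast hX
  have hXk : (1 : ℤ) ≤ (X : ℤ) ^ (κ + 1) := one_le_pow₀ hX'
  refine ⟨Fin.cons (F : ℤ) fun t : Fin J => if h : (t : ℕ) < s then (w ⟨t, h⟩ : ℤ) else 1,
    Fin.cons 1 fun t : Fin J => if h : (t : ℕ) < s then l ⟨t, h⟩ else 0, ?_, ?_, ?_⟩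
  · intro j
    refine Fin.cases ?_ (fun j => ?_) j
    · rw [Fin.cons_zero]
      refine ⟨by exact_mod_cast hF1, ?_⟩
      calc (F : ℤ) ≤ (X : ℤ) ^ κ := by exact_mod_cast hF2
        _ ≤ (X : ℤ) ^ (κ + 1) := pow_le_pow_right₀ hX' (by omega)
    · rw [Fin.cons_succ]
      by_cases hj : (j : ℕ) < s
      · rw [dif_pos hj]
        obtain ⟨⟨h1, h2⟩, -, -⟩ := hw ⟨j, hj⟩
        refine ⟨by exact_mod_cast h1, ?_⟩
        calc ((w ⟨j, hj⟩ : ℕ) : ℤ) ≤ X := by exact_mod_cast h2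
          _ = (X : ℤ) ^ 1 := (pow_one _).symm
          _ ≤ (X : ℤ) ^ (κ + 1) := pow_le_pow_right₀ hX' (by omega)
      · rw [dif_neg hj]
        exact ⟨le_refl _, hXk⟩
  · intro j
    refine Fin.cases ?_ (fun j => ?_) j
    · rw [Fin.cons_zero]
      omega
    · rw [Fin.cons_succ]
      by_cases hj : (j : ℕ) < s
      · rw [dif_pos hj]
        have := (hw ⟨j, hj⟩).2.1.2
        omega
      · rw [dif_neg hj]
        omega
  · rw [Fin.prod_univ_succ]
    simp only [Fin.cons_zero, Fin.cons_succ, pow_one]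
    push_cast
    congr 1
    rw [← FibP_ext hs fun t => (w t : ℤ) ^ l t]
    refine Finset.prod_congr rfl fun t _ => ?_
    by_cases ht : (t : ℕ) < s
    · rw [dif_pos ht, dif_pos ht, dif_pos ht]
    · rw [dif_neg ht, dif_neg ht, dif_neg ht, pow_zero]

private theorem FibP_prod {n J : ℕ} (s : Fin n) (K : Finset (Fin n))
    (y : Fin n → Fin (J + 1) → ℤ) (e : Fin n → Fin (J + 1) → ℕ) :
    ∏ k : Fin (n * (J + 1)), (y (finProdFinEquiv.symm k).1 (finProdFinEquiv.symm k).2) ^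
      (if (finProdFinEquiv.symm k).1 = s ∧ s ∉ K then e s (finProdFinEquiv.symm k).2 else 0) =
    if s ∈ K then 1 else ∏ j, y s j ^ e s j := by
  rw [← Equiv.prod_comp finProdFinEquiv]
  simp only [Equiv.symm_apply_apply]
  rw [Fintype.prod_prod_type]
  by_cases hs : s ∈ K
  · rw [if_pos hs]
    refine Finset.prod_eq_one fun i _ => Finset.prod_eq_one fun j _ => ?_
    rw [if_neg fun h => h.2 hs, pow_zero]
  · rw [if_neg hs]
    rw [Finset.prod_eq_single s]
    · refine Finset.prod_congr rfl fun j _ => ?_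
      rw [if_pos ⟨rfl, hs⟩]
    · intro i _ hi
      refine Finset.prod_eq_one fun j _ => ?_
      rw [if_neg fun h => hi h.1, pow_zero]
    · intro h
      exact absurd (Finset.mem_univ s) h

private theorem FibP_g (n J κ : ℕ) (ε : ℝ) (hε : 0 < ε) : ∃ h : ℕ, ∀ A E : ℕ, ∃ C : ℝ, 1 ≤ C ∧
    ∀ X : ℕ, 1 ≤ X → ∀ (K : Finset (Fin n)) (b : Fin n → ℤ) (S : Finset (Fin n → ℤ)),
      (∀ x ∈ S, Tg X A h x ∧ (∀ i ∈ K, x i = b i) ∧ ∀ i, i ∉ K → Cc X κ E J (x i).natAbs) →
      (S.card : ℝ) ≤ C * (X : ℝ) ^ ε := by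
  classical
  obtain ⟨h, hg⟩ := Pool.MP_a95293_nt.GV.gsurf n (n * (J + 1)) (κ + 1) ε hε
  refine ⟨h, fun A E => ?_⟩
  obtain ⟨C', hC'⟩ := hg A (E + 1)
  obtain ⟨N, hN⟩ : ∃ N : ℕ, N = Fintype.card ((Fin n → Fin (n * (J + 1)) → Fin (E + 2)) ×
    (Fin n → Bool)) := ⟨_, rfl⟩
  have hN1 : 1 ≤ N := by
    rw [hN]
    exact Fintype.card_pos_iff.2 ⟨(fun _ _ => 0, fun _ => true)⟩
  refine ⟨N * max 1 C', ?_, fun X hX K b S hS => ?_⟩
  · have h1 : (1 : ℝ) ≤ N := by exact_mod_cast hN1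
    exact one_le_mul_of_one_le_of_one_le h1 (le_max_left _ _)
  have hXR : (1 : ℝ) ≤ X := by exact_mod_cast hX
  have hX' : (1 : ℤ) ≤ X := by exact_mod_cast hX
  have hXe : (1 : ℝ) ≤ (X : ℝ) ^ ε := Real.one_le_rpow hXR hε.le
  -- the decompositions
  have hdec : ∀ (x : Fin n → ℤ) (i : Fin n), ∃ (y : Fin (J + 1) → ℤ) (e : Fin (J + 1) → ℕ),
      (∀ j, 1 ≤ y j ∧ y j ≤ (X : ℤ) ^ (κ + 1)) ∧ (∀ j, e j ≤ E + 1) ∧
      (x ∈ S → i ∉ K → ((x i).natAbs : ℤ) = ∏ j, y j ^ e j) := by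
    intro x i
    by_cases hx : x ∈ S ∧ i ∉ K
    · obtain ⟨y, e, h1, h2, h3⟩ := FibP_cc hX ((hS x hx.1).2.2 i hx.2)
      exact ⟨y, e, h1, h2, fun _ _ => h3⟩
    · exact ⟨fun _ => 1, fun _ => 0, fun _ => ⟨le_refl _, one_le_pow₀ hX'⟩, fun _ => Nat.zero_le _,
        fun h1 h2 => absurd ⟨h1, h2⟩ hx⟩
  choose y e hy he hye using hdec
  obtain ⟨z, hz⟩ : ∃ z : (Fin n → ℤ) → Fin (n * (J + 1)) → ℤ, z = fun x k =>
    y x (finProdFinEquiv.symm k).1 (finProdFinEquiv.symm k).2 := ⟨_, rfl⟩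
  obtain ⟨u, hu⟩ : ∃ u : (Fin n → ℤ) → Fin n → Fin (n * (J + 1)) → ℕ, u = fun x s k =>
    if (finProdFinEquiv.symm k).1 = s ∧ s ∉ K then e x s (finProdFinEquiv.symm k).2 else 0 :=
    ⟨_, rfl⟩
  have huE : ∀ x s k, u x s k < E + 2 := by
    intro x s k
    rw [hu]
    dsimp only
    split_ifs
    · have := he x s (finProdFinEquiv.symm k).2
      omega
    · omega
  have hprod : ∀ x ∈ S, ∀ s, ∏ k, z x k ^ u x s k = if s ∈ K then 1 else ((x s).natAbs : ℤ) := by
    intro x hx s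
    rw [hz, hu]
    dsimp only
    rw [FibP_prod s K (y x) (e x)]
    by_cases hs : s ∈ K
    · rw [if_pos hs, if_pos hs]
    · rw [if_neg hs, if_neg hs, hye x s hx hs]
  obtain ⟨D, hD⟩ : ∃ D : (Fin n → ℤ) → (Fin n → Fin (n * (J + 1)) → Fin (E + 2)) ×
      (Fin n → Bool), D = fun x => (fun s k => ⟨u x s k, huE x s k⟩, fun s => decide (0 < x s)) :=
    ⟨_, rfl⟩
  -- one class
  have hfib : ∀ d ∈ S.image D, (S.filter fun x => D x = d).card ≤ ⌊max 1 C' * (X : ℝ) ^ ε⌋₊ := by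
    intro d hd
    obtain ⟨x0, hx0, rfl⟩ := Finset.mem_image.1 hd
    apply Nat.le_floor
    obtain ⟨a, ha⟩ : ∃ a : Fin n → ℤ, a = fun s =>
      if s ∈ K then b s else (if 0 < x0 s then 1 else -1) := ⟨_, rfl⟩
    have hD1 : ∀ x, D x = D x0 → u x = u x0 := by
      intro x hx
      rw [hD] at hx
      have h1 := (Prod.mk.injEq _ _ _ _).mp hx
      funext s k
      have h2 := congrFun (congrFun h1.1 s) k
      exact congrArg Fin.val h2
    have hD2 : ∀ x, D x = D x0 → ∀ s, (0 < x s ↔ 0 < x0 s) := by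
      intro x hx s
      rw [hD] at hx
      have h1 := (Prod.mk.injEq _ _ _ _).mp hx
      have h2 := congrFun h1.2 s
      exact decide_eq_decide.1 h2
    have hU : ∀ x ∈ S, D x = D x0 → Pool.MP_a95293_nt.GV.U a (u x0) (z x) = x := by
      intro x hx hxD
      funext s
      unfold Pool.MP_a95293_nt.GV.U
      rw [← hD1 x hxD, hprod x hx s, ha]
      dsimp only
      by_cases hs : s ∈ K
      · rw [if_pos hs, if_pos hs, mul_one]
        exact ((hS x hx).2.1 s hs).symm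
      · rw [if_neg hs, if_neg hs]
        by_cases h0 : 0 < x0 s
        · rw [if_pos h0, one_mul]
          have := (hD2 x hxD s).2 h0
          omega
        · rw [if_neg h0]
          have : ¬ 0 < x s := fun h1 => h0 ((hD2 x hxD s).1 h1)
          omega
    have hsub : (S.filter fun x => D x = D x0) ⊆
        ((S.filter fun x => D x = D x0).image z).image (Pool.MP_a95293_nt.GV.U a (u x0)) := by
      intro x hx
      have h1 := Finset.mem_filter.1 hx
      rw [Finset.mem_image]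
      exact ⟨z x, Finset.mem_image_of_mem z hx, hU x h1.1 h1.2⟩
    have hPt : ∀ w ∈ (S.filter fun x => D x = D x0).image z,
        Pool.MP_a95293_nt.GV.Pt a (u x0) X (κ + 1) h w := by
      intro w hw
      obtain ⟨x, hx, rfl⟩ := Finset.mem_image.1 hw
      obtain ⟨hxS, hxD⟩ := Finset.mem_filter.1 hx
      have hUx := hU x hxS hxD
      have hT := (hS x hxS).1
      refine ⟨fun i => ?_, fun i => ?_, ?_, ?_, ?_⟩
      · rw [hz]
        exact (hy x _ _).1
      · rw [hz]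
        exact (hy x _ _).2
      · rw [hUx]
        exact hT.sum
      · rw [hUx]
        intro c hc
        exact hT.prim c hc
      · rw [hUx]
        exact hT.gp
    have h1 := hC' X hX a (u x0) ((S.filter fun x => D x = D x0).image z) ?_ ?_ ?_ hPt
    · calc (((S.filter fun x => D x = D x0).card : ℕ) : ℝ) ≤
            ((((S.filter fun x => D x = D x0).image z).image
              (Pool.MP_a95293_nt.GV.U a (u x0))).card : ℝ) := by
              exact_mod_cast Finset.card_le_card hsub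
        _ ≤ C' * (X : ℝ) ^ ε := h1
        _ ≤ max 1 C' * (X : ℝ) ^ ε :=
            mul_le_mul_of_nonneg_right (le_max_right _ _) (by linarith)
    · intro s
      rw [ha]
      dsimp only
      by_cases hs : s ∈ K
      · rw [if_pos hs, ← (hS x0 hx0).2.1 s hs]
        exact (hS x0 hx0).1.ne s
      · rw [if_neg hs]
        split_ifs <;> norm_num
    · intro s
      rw [ha]
      dsimp only
      by_cases hs : s ∈ K
      · rw [if_pos hs, ← (hS x0 hx0).2.1 s hs]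
        have h2 := (hS x0 hx0).1.le s
        rw [Int.abs_eq_natAbs]
        exact_mod_cast h2
      · rw [if_neg hs]
        have h2 : (1 : ℤ) ≤ (X : ℤ) ^ A := one_le_pow₀ hX'
        split_ifs
        · rw [abs_one]
          exact h2
        · rw [abs_neg, abs_one]
          exact h2
    · intro s k
      have := huE x0 s k
      omega
  have hcard := Finset.card_le_mul_card_image S _ hfib
  have h3 : (S.image D).card ≤ N := by
    rw [hN]
    exact Finset.card_le_univ _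
  have h4 : ((⌊max 1 C' * (X : ℝ) ^ ε⌋₊ : ℕ) : ℝ) ≤ max 1 C' * (X : ℝ) ^ ε :=
    Nat.floor_le (by positivity)
  calc (S.card : ℝ) ≤ ((⌊max 1 C' * (X : ℝ) ^ ε⌋₊ * (S.image D).card : ℕ) : ℝ) := by
        exact_mod_cast hcard
    _ = (⌊max 1 C' * (X : ℝ) ^ ε⌋₊ : ℝ) * ((S.image D).card : ℝ) := by push_cast; ring
    _ ≤ (max 1 C' * (X : ℝ) ^ ε) * N :=
        mul_le_mul h4 (by exact_mod_cast h3) (by positivity) (by positivity)
    _ = N * max 1 C' * (X : ℝ) ^ ε := by ring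


private theorem FibP_gp {z w d e : ℤ} {H : ℕ} (hz : z ≠ 0) (hw : w ≠ 0) (hc : IsCoprime z w)
    (hd : |d| ≤ 2 * (H : ℤ)) (he : |e| ≤ 2 * (H : ℤ)) (h : d * z = e * w)
    (hb : 2 * H < z.natAbs ∨ 2 * H < w.natAbs) : d = 0 ∧ e = 0 := by
  have h1 : w ∣ d := by
    have : w ∣ d * z := ⟨e, by rw [h]; ring⟩
    exact hc.symm.dvd_of_dvd_mul_right this
  have h2 : z ∣ e := by
    have : z ∣ e * w := ⟨d, by rw [← h]; ring⟩
    exact hc.dvd_of_dvd_mul_right this
  have h3 : d = 0 ↔ e = 0 := by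
    constructor
    · intro h0
      rw [h0, zero_mul] at h
      rcases mul_eq_zero.1 h.symm with h4 | h4
      · exact h4
      · exact absurd h4 hw
    · intro h0
      rw [h0, zero_mul] at h
      rcases mul_eq_zero.1 h with h4 | h4
      · exact h4
      · exact absurd h4 hz
  by_contra hcon
  have hd0 : d ≠ 0 := fun h0 => hcon ⟨h0, h3.1 h0⟩
  have he0 : e ≠ 0 := fun h0 => hd0 (h3.2 h0)
  have h5 := Int.le_of_dvd (abs_pos.2 hd0) ((dvd_abs _ _).2 h1)
  have h5' : (w.natAbs : ℤ) ≤ |d| := by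
    have := Int.le_of_dvd (abs_pos.2 hd0) ((abs_dvd_abs _ _).2 h1)
    rwa [Int.abs_eq_natAbs w] at this
  have h6' : (z.natAbs : ℤ) ≤ |e| := by
    have := Int.le_of_dvd (abs_pos.2 he0) ((abs_dvd_abs _ _).2 h2)
    rwa [Int.abs_eq_natAbs z] at this
  omega

theorem fibP (J κ : ℕ) (ε : ℝ) (hε : 0 < ε) : ∃ h : ℕ, ∀ A E : ℕ, ∃ C : ℝ, 1 ≤ C ∧
    ∀ X : ℕ, 1 ≤ X → ∀ (N : ℤ) (S : Finset (ℤ × ℤ)), N ≠ 0 → N.natAbs ≤ X ^ A →
      (∀ z ∈ S, z.1 ≠ 0 ∧ z.2 ≠ 0 ∧ IsCoprime z.1 z.2 ∧ z.1 + z.2 + N = 0 ∧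
        z.1.natAbs ≤ X ^ A ∧ z.2.natAbs ≤ X ^ A ∧ Cc X κ E J z.1.natAbs ∧ Cc X κ E J z.2.natAbs ∧
        (2 * X ^ h < z.1.natAbs ∨ 2 * X ^ h < z.2.natAbs)) →
      (S.card : ℝ) ≤ C * (X : ℝ) ^ ε := by
  classical
  obtain ⟨h, hg⟩ := FibP_g 3 J κ ε hε
  refine ⟨h, fun A E => ?_⟩
  obtain ⟨C, hC1, hC⟩ := hg A E
  refine ⟨C, hC1, fun X hX N S hN hNA hS => ?_⟩
  obtain ⟨φ, hφ⟩ : ∃ φ : ℤ × ℤ → (Fin 3 → ℤ), φ = fun z => ![z.1, z.2, N] := ⟨_, rfl⟩
  have hinj : Function.Injective φ := by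
    intro z w hzw
    rw [hφ] at hzw
    have h1 := congrFun hzw 0
    have h2 := congrFun hzw 1
    simp only [Matrix.cons_val_zero, Matrix.cons_val_one] at h1 h2
    exact Prod.ext h1 h2
  have h1 := hC X hX {2} (fun _ => N) (S.image φ) ?_
  · rwa [Finset.card_image_of_injective S hinj] at h1
  · intro x hx
    obtain ⟨z, hz, rfl⟩ := Finset.mem_image.1 hx
    obtain ⟨g1, g2, g3, g4, g5, g6, g7, g8, g9⟩ := hS z hz
    have e0 : φ z 0 = z.1 := by rw [hφ]; rfl
    have e1 : φ z 1 = z.2 := by rw [hφ]; rfl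
    have e2 : φ z 2 = N := by rw [hφ]; rfl
    refine ⟨⟨?_, ?_, ?_, ?_, ?_⟩, ?_, ?_⟩
    · intro i
      fin_cases i
      · exact e0 ▸ g1
      · exact e1 ▸ g2
      · exact e2 ▸ hN
    · rw [Fin.sum_univ_three, e0, e1, e2]
      exact g4
    · intro b hb
      have b0 := hb 0
      have b1 := hb 1
      rw [e0] at b0
      rw [e1] at b1
      exact g3.isUnit_of_dvd' b0 b1
    · intro i
      fin_cases i
      · exact e0 ▸ g5
      · exact e1 ▸ g6
      · exact e2 ▸ hNA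
    · intro c hc hsum
      rw [Fin.sum_univ_three, e0, e1, e2] at hsum
      have b0 := abs_le.1 (hc 0)
      have b1 := abs_le.1 (hc 1)
      have b2 := abs_le.1 (hc 2)
      have hXh : ((X ^ h : ℕ) : ℤ) = (X : ℤ) ^ h := by push_cast; rfl
      have k := FibP_gp (z := z.1) (w := z.2) (d := c 0 - c 2) (e := c 2 - c 1) (H := X ^ h)
        g1 g2 g3 (by rw [hXh, abs_le]; constructor <;> linarith)
        (by rw [hXh, abs_le]; constructor <;> linarith) (by
          have : N = - z.1 - z.2 := by linarith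
          rw [this] at hsum
          linear_combination hsum) g9
      have k1 : c 0 = c 2 := by linarith [k.1]
      have k2 : c 2 = c 1 := by linarith [k.2]
      have key : ∀ s, c s = c 2 := by
        intro s
        fin_cases s
        · exact k1
        · exact k2.symm
        · rfl
      intro s s'
      rw [key s, key s']
    · intro i hi
      rw [Finset.mem_singleton] at hi
      rw [hi, e2]
    · intro i hi
      rw [Finset.mem_singleton] at hi
      fin_cases i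
      · exact e0 ▸ g7
      · exact e1 ▸ g8
      · exact absurd rfl hi

end Pool.MP_a95293_nt.NN
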