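import Pool.Agent.Lib_MP_a95293_nn.MainS

/-!
# THEOREM N: one statement for all `n ≥ 3` and all `1 ≤ s ≤ n - 2`

For `s = n - 2` every tuple with an entry `≥ R ^ M` is counted (`mainA`), for `s < n - 2` those with at least `n - s` such entries (`mainS`). For `n = 3` the theorem `mainW` is used directly, so that no coprimality is required.
-/

set_option autoImplicit false

namespace Pool.MP_a95293_nt.NN

open Finset
open Pool.MP_a95293_nt.RC (rd radZ Adm)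

/-- the admissible `n`-tuples, pairwise coprime if `n ≥ 4`, with radical `R ≤ X`, entries at most `X ^ A`, some entry at least `R ^ M` and, if `s < n - 2`, at least `n - s` entries at least `R ^ M` -/
def VF (n s M A X : ℕ) : Set (Fin n → ℤ) :=
  {x | Adm x ∧ (4 ≤ n → ∀ i j, i ≠ j → IsCoprime (x i) (x j)) ∧ radZ (∏ i, x i) ≤ X ∧
    (∀ j, |x j| ≤ (X : ℤ) ^ A) ∧ (∃ j, (radZ (∏ i, x i) : ℤ) ^ M ≤ |x j|) ∧
    (s + 2 < n → n ≤ s + (univ.filter fun j => (radZ (∏ i, x i) : ℤ) ^ M ≤ |x j|).card)}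

theorem mainF (n s : ℕ) (hs : 1 ≤ s) (hsn : s + 2 ≤ n) (θ : ℝ)
    (hθ1 : 1 - 2 / (n : ℝ) < θ) (hθ2 : 1 - 1 / (s : ℝ) < θ) : ∃ M : ℕ, ∀ A : ℕ,
    ∃ C : ℝ, ∀ X : ℕ, 1 ≤ X → (VF n s M A X).Finite ∧
      ((VF n s M A X).ncard : ℝ) ≤ C * (X : ℝ) ^ θ := by
  have mono : ∀ (T : ℕ → ℕ → Set (Fin n → ℤ)) (M : ℕ),
      (∀ A : ℕ, ∃ C : ℝ, ∀ X : ℕ, 1 ≤ X → (T A X).Finite ∧ ((T A X).ncard : ℝ) ≤ C * (X : ℝ) ^ θ) →
      (∀ A X : ℕ, VF n s M A X ⊆ T A X) → ∀ A : ℕ, ∃ C : ℝ, ∀ X : ℕ, 1 ≤ X →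
        (VF n s M A X).Finite ∧ ((VF n s M A X).ncard : ℝ) ≤ C * (X : ℝ) ^ θ := by
    intro T M hT hsub A
    obtain ⟨C, hC⟩ := hT A
    refine ⟨C, fun X hX => ?_⟩
    obtain ⟨h1, h2⟩ := hC X hX
    refine ⟨h1.subset (hsub A X), le_trans ?_ h2⟩
    exact_mod_cast Set.ncard_le_ncard (hsub A X) h1
  rcases Nat.lt_or_ge 3 n with h4 | h3
  · rcases Nat.lt_or_ge (s + 2) n with hlt | hge
    · obtain ⟨M, hM⟩ := mainS n s hs hsn θ hθ1 hθ2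
      refine ⟨M, mono (fun A X => VS n s M A X) M hM fun A X x hx => ?_⟩
      obtain ⟨g1, g2, g3, g4, -, g6⟩ := hx
      exact ⟨g1, g2 h4, g3, g4, g6 hlt⟩
    · obtain rfl : n = s + 2 := by omega
      obtain ⟨M, hM⟩ := mainA (s + 2) (by omega) θ hθ1 (by
        have : ((s + 2 : ℕ) : ℝ) - 2 = s := by
          push_cast
          ring
        rw [this]
        exact hθ2)
      refine ⟨M, mono (fun A X => VA (s + 2) M A X) M hM fun A X x hx => ?_⟩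
      obtain ⟨g1, g2, g3, g4, g5, -⟩ := hx
      exact ⟨g1, g2 h4, g3, g4, g5⟩
  · obtain rfl : n = 3 := by omega
    obtain ⟨M, hM⟩ := Pool.MP_a95293_nt.CG.mainW θ (by
      refine lt_of_le_of_lt (le_of_eq ?_) hθ1
      norm_num)
    refine ⟨M, mono (fun A X => {x : Fin 3 → ℤ | Adm x ∧ radZ (∏ i, x i) ≤ X ∧
        (∀ j, |x j| ≤ (X : ℤ) ^ A) ∧ ∃ j, ((radZ (∏ i, x i) : ℤ)) ^ M ≤ |x j|}) M hM
        fun A X x hx => ?_⟩
    obtain ⟨g1, g2, g3, g4, g5, -⟩ := hx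
    exact ⟨g1, g3, g4, g5⟩

end Pool.MP_a95293_nt.NN
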