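import Pool.Agent.Lib_MP_a95293_nn.Count
import Pool.Agent.Lib_MP_a95293_cg.MainW
import Pool.Agent.Lib_MP_a95293_rc.CorC

/-!
# THEOREM N (final form), all `n ≥ 3`

`VS n s M A X`: the pairwise coprime admissible `n`-tuples with radical `R ≤ X`, entries at most `X ^ A`, at most `s` of which are smaller than `R ^ M`. `mainS`: at most `C X ^ θ` for `θ > max (1 - 2 / n) (1 - 1 / s)`.
`VA n M A X`: the same with `R ^ M ≤ |x j|` for at least one `j`. `mainA`: `θ > max (1 - 2 / n) (1 - 1 / (n - 2))`, from `s = n - 2`, since the sum is `0`.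
Proof of `mainS` for `n ≥ 4`: `M = 2 H`, `H` from `countS`. Part with `R ^ 2 ≤ X`: `famT` with `Y = X ^ (1 / 2)`. Part with `X < R ^ 2`: `X ^ H ≤ R ^ (2 H)`, `countS`. `n = 3`: `mainW`.
-/

set_option autoImplicit false

namespace Pool.MP_a95293_nt.NN

open Finset
open Pool.MP_a95293_nt.RC (rd radZ Adm)

/-- the admissible, pairwise coprime `n`-tuples with radical at most `X` and entries at most `X ^ A`, at most `s` of the entries being smaller than (radical) ^ `M` -/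
def VS (n s M A X : ℕ) : Set (Fin n → ℤ) :=
  {x | Adm x ∧ (∀ i j, i ≠ j → IsCoprime (x i) (x j)) ∧ radZ (∏ i, x i) ≤ X ∧
    (∀ j, |x j| ≤ (X : ℤ) ^ A) ∧
    n ≤ s + (univ.filter fun j => (radZ (∏ i, x i) : ℤ) ^ M ≤ |x j|).card}

/-- the admissible, pairwise coprime `n`-tuples with radical at most `X` and entries at most `X ^ A` which violate the exponent `M` -/
def VA (n M A X : ℕ) : Set (Fin n → ℤ) :=
  {x | Adm x ∧ (∀ i j, i ≠ j → IsCoprime (x i) (x j)) ∧ radZ (∏ i, x i) ≤ X ∧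
    (∀ j, |x j| ≤ (X : ℤ) ^ A) ∧ ∃ j, (radZ (∏ i, x i) : ℤ) ^ M ≤ |x j|}

private theorem MainS_ne {n : ℕ} (hn : 3 ≤ n) {x : Fin n → ℤ} (hx : Adm x) (i : Fin n) : x i ≠ 0 := by
  have h := hx.2.2 {i} (singleton_nonempty i) (by
    intro h
    have h1 : ({i} : Finset (Fin n)).card = (univ : Finset (Fin n)).card := by rw [h]
    rw [card_singleton, card_univ, Fintype.card_fin] at h1
    omega)
  rwa [sum_singleton] at h

private theorem MainS_two {n : ℕ} (hn : 3 ≤ n) {x : Fin n → ℤ} (hx : Adm x) (i j : Fin n)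
    (hij : i ≠ j) : x i + x j ≠ 0 := by
  classical
  have h := hx.2.2 {i, j} (insert_nonempty _ _) (by
    intro h
    have h1 : ({i, j} : Finset (Fin n)).card = (univ : Finset (Fin n)).card := by rw [h]
    rw [card_pair hij, card_univ, Fintype.card_fin] at h1
    omega)
  rwa [sum_pair hij] at h

private theorem MainS_rad_aux {n : ℕ} (x : Fin n → ℤ)
    (hx : ∀ i j, i ≠ j → IsCoprime (x i) (x j)) (s : Finset (Fin n)) :
    rd (∏ i ∈ s, x i).natAbs = ∏ i ∈ s, rd (x i).natAbs := by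
  classical
  induction s using Finset.induction_on with
  | empty => simp [Pool.MP_a95293_nt.RC.rd]
  | insert a s ha ih =>
    rw [prod_insert ha, prod_insert ha, Int.natAbs_mul, ← ih]
    apply Pool.MP_a95293_nt.RC.rd_mul
    have h1 : IsCoprime (x a) (∏ i ∈ s, x i) := by
      apply IsCoprime.prod_right
      intro i hi
      exact hx a i (fun h => ha (h ▸ hi))
    exact Int.isCoprime_iff_gcd_eq_one.1 h1

private theorem MainS_rad {n : ℕ} (x : Fin n → ℤ) (hx : ∀ i j, i ≠ j → IsCoprime (x i) (x j)) :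
    radZ (∏ i, x i) = ∏ i, rd (x i).natAbs := by
  exact MainS_rad_aux x hx univ

theorem mainS4 (n s : ℕ) (hn : 4 ≤ n) (hs : 1 ≤ s) (hsn : s < n) (θ : ℝ)
    (hθ1 : 1 - 2 / (n : ℝ) < θ) (hθ2 : 1 - 1 / (s : ℝ) < θ) : ∃ M : ℕ, ∀ A : ℕ,
    ∃ C : ℝ, ∀ X : ℕ, 1 ≤ X → (VS n s M A X).Finite ∧
      ((VS n s M A X).ncard : ℝ) ≤ C * (X : ℝ) ^ θ := by
  classical
  have hn' : (4 : ℝ) ≤ n := by exact_mod_cast hn
  have hhalf : 1 / 2 < θ := by
    have : 2 / (n : ℝ) ≤ 1 / 2 := by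
      rw [div_le_div_iff₀ (by linarith) (by norm_num)]
      linarith
    linarith
  obtain ⟨h, hcount⟩ := countS n s hn hs hsn θ hθ1 hθ2
  refine ⟨2 * h, fun A => ?_⟩
  obtain ⟨C1, hC1, X₀, hX₀1, hC⟩ := hcount A
  obtain ⟨C3, hC3, fT⟩ := famT n A (θ - 1 / 2) (by linarith)
  -- the box
  set Bx : ℕ → Finset (Fin n → ℤ) := fun N =>
    Fintype.piFinset fun _ => Icc (-((N : ℤ) ^ A)) ((N : ℤ) ^ A) with hBx
  have hsub : ∀ X N : ℕ, X ≤ N → VS n s (2 * h) A X ⊆ (Bx N : Set (Fin n → ℤ)) := by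
    intro X N hXN x hx
    obtain ⟨_, _, _, hx, _⟩ := hx
    rw [mem_coe, hBx, Fintype.mem_piFinset]
    intro j
    have h2 : (X : ℤ) ^ A ≤ (N : ℤ) ^ A :=
      pow_le_pow_left₀ (Int.natCast_nonneg X) (by exact_mod_cast hXN) A
    rw [mem_Icc]
    exact abs_le.1 ((hx j).trans h2)
  have hfin : ∀ X : ℕ, (VS n s (2 * h) A X).Finite := fun X =>
    (Bx X).finite_toSet.subset (hsub X X le_rfl)
  refine ⟨C1 + C3 + (Bx X₀).card, fun X hX => ⟨hfin X, ?_⟩⟩
  have hX1 : (1 : ℝ) ≤ X := by exact_mod_cast hX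
  have hXr : (0 : ℝ) < X := by linarith
  have hθ0 : 0 ≤ θ := by linarith
  have hXθ : 1 ≤ (X : ℝ) ^ θ := Real.one_le_rpow hX1 hθ0
  have hB0 : (0 : ℝ) ≤ (Bx X₀).card := Nat.cast_nonneg _
  rcases le_total X₀ X with hXX | hXX
  · rw [Set.ncard_eq_toFinset_card _ (hfin X)]
    set W := (hfin X).toFinset with hW
    have hWm : ∀ x ∈ W, x ∈ VS n s (2 * h) A X := by
      intro x hx
      rw [hW, Set.Finite.mem_toFinset] at hx
      exact hx
    set W1 := W.filter fun x => radZ (∏ i, x i) ^ 2 ≤ X with hW1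
    set W2 := W.filter fun x => ¬ radZ (∏ i, x i) ^ 2 ≤ X with hW2
    have hcard : W1.card + W2.card = W.card := card_filter_add_card_filter_not _
    have hnat : ∀ x ∈ W, ∀ i, (x i).natAbs ≤ X ^ A := by
      intro x hx i
      have h3 := (hWm x hx).2.2.2.1 i
      rw [← Int.natCast_natAbs] at h3
      exact_mod_cast h3
    have c1 := fT X ((X : ℝ) ^ (1 / 2 : ℝ)) hX (by positivity) W1 (fun x hx => by
      rw [hW1, mem_filter] at hx
      obtain ⟨hx, hx2⟩ := hx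
      have hV := hWm x hx
      refine ⟨MainS_ne (by omega) hV.1, hnat x hx, ?_⟩
      have e : (∏ i, (rd (x i).natAbs : ℝ)) = (radZ (∏ i, x i) : ℝ) := by
        rw [MainS_rad x hV.2.1]
        push_cast
        rfl
      rw [e, ← Real.sqrt_eq_rpow]
      apply Real.le_sqrt_of_sq_le
      exact_mod_cast hx2)
    have c2 := hC X hXX W2 (fun x hx => by
      rw [hW2, mem_filter] at hx
      obtain ⟨hx, hx2⟩ := hx
      obtain ⟨v1, v2, v3, v4, v5⟩ := hWm x hx
      refine ⟨⟨MainS_ne (by omega) v1, v1.2.1, v2, hnat x hx, ?_,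
        fun i j hij => MainS_two (by omega) v1 i j hij⟩, ?_⟩
      · rw [← MainS_rad x v2]
        exact v3
      · refine v5.trans (Nat.add_le_add_left (card_le_card ?_) s)
        intro j hj
        rw [mem_filter] at hj ⊢
        refine ⟨hj.1, ?_⟩
        have h4 : X ^ h ≤ radZ (∏ i, x i) ^ (2 * h) := by
          rw [pow_mul]
          exact Nat.pow_le_pow_left (by omega) h
        have h5 := hj.2
        rw [← Int.natCast_natAbs] at h5
        exact h4.trans (by exact_mod_cast h5))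
    have e1 : (X : ℝ) ^ (θ - 1 / 2) * (X : ℝ) ^ (1 / 2 : ℝ) = (X : ℝ) ^ θ := by
      rw [← Real.rpow_add hXr]
      congr 1
      ring
    rw [mul_assoc, e1] at c1
    have hcard' : (W.card : ℝ) = W1.card + W2.card := by exact_mod_cast hcard.symm
    rw [hcard']
    nlinarith
  · have h3 : (VS n s (2 * h) A X).ncard ≤ (Bx X₀).card := by
      rw [← Set.ncard_coe_finset]
      exact Set.ncard_le_ncard (hsub X X₀ hXX) (Bx X₀).finite_toSet
    have h4 : ((VS n s (2 * h) A X).ncard : ℝ) ≤ (Bx X₀).card := by exact_mod_cast h3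
    refine h4.trans ?_
    have h5 : 0 ≤ C1 + C3 := by linarith
    nlinarith

/-- THEOREM N for all `n ≥ 3` -/
theorem mainS (n s : ℕ) (hs : 1 ≤ s) (hsn : s + 2 ≤ n) (θ : ℝ)
    (hθ1 : 1 - 2 / (n : ℝ) < θ) (hθ2 : 1 - 1 / (s : ℝ) < θ) : ∃ M : ℕ, ∀ A : ℕ,
    ∃ C : ℝ, ∀ X : ℕ, 1 ≤ X → (VS n s M A X).Finite ∧
      ((VS n s M A X).ncard : ℝ) ≤ C * (X : ℝ) ^ θ := by
  rcases Nat.lt_or_ge 3 n with h4 | h3
  · exact mainS4 n s h4 hs (by omega) θ hθ1 hθ2
  · obtain rfl : n = 3 := by omega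
    obtain ⟨M, hM⟩ := Pool.MP_a95293_nt.CG.mainW θ (by
      refine lt_of_le_of_lt (le_of_eq ?_) hθ1
      norm_num)
    refine ⟨M, fun A => ?_⟩
    obtain ⟨C, hC⟩ := hM A
    refine ⟨C, fun X hX => ?_⟩
    obtain ⟨h1, h2⟩ := hC X hX
    have hsub : VS 3 s M A X ⊆ {x : Fin 3 → ℤ | Adm x ∧ radZ (∏ i, x i) ≤ X ∧
        (∀ j, |x j| ≤ (X : ℤ) ^ A) ∧ ∃ j, ((radZ (∏ i, x i) : ℤ)) ^ M ≤ |x j|} := by
      intro x hx
      obtain ⟨g1, g2, g3, g4, g5⟩ := hx
      refine ⟨g1, g3, g4, ?_⟩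
      have g6 : 0 < (univ.filter fun j => (radZ (∏ i, x i) : ℤ) ^ M ≤ |x j|).card := by omega
      obtain ⟨j, hj⟩ := card_pos.1 g6
      exact ⟨j, (mem_filter.1 hj).2⟩
    refine ⟨h1.subset hsub, le_trans ?_ h2⟩
    exact_mod_cast Set.ncard_le_ncard hsub h1

/-- if one entry is huge then two entries are huge -/
private theorem MainS_two_huge {n M : ℕ} (hn : 3 ≤ n) {x : Fin n → ℤ} (hx : Adm x) (R : ℕ)
    (hR : 1 ≤ R) (j : Fin n) (hj : (R : ℤ) ^ (M + n) ≤ |x j|) :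
    n ≤ (n - 2) + (univ.filter fun j => (R : ℤ) ^ M ≤ |x j|).card := by
  classical
  have hR1 : (1 : ℤ) ≤ R := by exact_mod_cast hR
  have hRM : (1 : ℤ) ≤ (R : ℤ) ^ M := one_le_pow₀ hR1
  rcases Nat.lt_or_ge 1 R with hR2 | hR2
  · have h1 : (R : ℤ) ^ M ≤ |x j| :=
      (pow_le_pow_right₀ hR1 (by omega)).trans hj
    have hex : ∃ k, k ≠ j ∧ (R : ℤ) ^ M ≤ |x k| := by
      by_contra hcon
      push Not at hcon
      have h2 : x j = - ∑ k ∈ univ.erase j, x k := by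
        have := Finset.add_sum_erase univ x (mem_univ j)
        rw [hx.2.1] at this
        linarith
      have h3 : |x j| ≤ ∑ k ∈ univ.erase j, |x k| := by
        rw [h2, abs_neg]
        exact abs_sum_le_sum_abs _ _
      have h4 : ∑ k ∈ univ.erase j, |x k| ≤ ((univ.erase j).card : ℕ) • (R : ℤ) ^ M :=
        Finset.sum_le_card_nsmul _ _ _ fun k hk => (hcon k (ne_of_mem_erase hk)).le
      rw [card_erase_of_mem (mem_univ _), card_univ, Fintype.card_fin, nsmul_eq_mul] at h4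
      have h5 : ((n - 1 : ℕ) : ℤ) < (R : ℤ) ^ n := by
        have h6 : n < R ^ n := Nat.lt_pow_self hR2
        have h7 : n - 1 < R ^ n := by omega
        exact_mod_cast h7
      have h8 : (R : ℤ) ^ (M + n) = (R : ℤ) ^ n * (R : ℤ) ^ M := by ring
      rw [h8] at hj
      nlinarith
    obtain ⟨k, hk, h2⟩ := hex
    have h3 : ({j, k} : Finset (Fin n)) ⊆ univ.filter fun j => (R : ℤ) ^ M ≤ |x j| := by
      intro i hi
      rw [mem_insert, mem_singleton] at hi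
      rw [mem_filter]
      rcases hi with rfl | rfl
      · exact ⟨mem_univ _, h1⟩
      · exact ⟨mem_univ _, h2⟩
    have h4 := card_le_card h3
    rw [card_pair hk.symm] at h4
    omega
  · obtain rfl : R = 1 := by omega
    have h3 : (univ.filter fun j => ((1 : ℕ) : ℤ) ^ M ≤ |x j|) = univ := by
      rw [filter_eq_self]
      intro k _
      rw [Nat.cast_one, one_pow]
      exact Int.one_le_abs (MainS_ne hn hx k)
    rw [h3, card_univ, Fintype.card_fin]
    omega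

/-- THEOREM N for all violations -/
theorem mainA (n : ℕ) (hn : 3 ≤ n) (θ : ℝ)
    (hθ1 : 1 - 2 / (n : ℝ) < θ) (hθ2 : 1 - 1 / ((n : ℝ) - 2) < θ) : ∃ M : ℕ, ∀ A : ℕ,
    ∃ C : ℝ, ∀ X : ℕ, 1 ≤ X → (VA n M A X).Finite ∧
      ((VA n M A X).ncard : ℝ) ≤ C * (X : ℝ) ^ θ := by
  have hc : ((n - 2 : ℕ) : ℝ) = (n : ℝ) - 2 := by
    have : (n - 2) + 2 = n := by omega
    rw [← this]
    push_cast
    ring
  obtain ⟨M, hM⟩ := mainS n (n - 2) (by omega) (by omega) θ hθ1 (by rw [hc]; exact hθ2)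
  refine ⟨M + n, fun A => ?_⟩
  obtain ⟨C, hC⟩ := hM A
  refine ⟨C, fun X hX => ?_⟩
  obtain ⟨h1, h2⟩ := hC X hX
  have hsub : VA n (M + n) A X ⊆ VS n (n - 2) M A X := by
    intro x hx
    obtain ⟨g1, g2, g3, g4, j, hj⟩ := hx
    exact ⟨g1, g2, g3, g4, MainS_two_huge hn g1 _ (Pool.MP_a95293_nt.RC.rd_pos _) j hj⟩
  refine ⟨h1.subset hsub, le_trans ?_ h2⟩
  exact_mod_cast Set.ncard_le_ncard hsub h1

end Pool.MP_a95293_nt.NN
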